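import Mathlib

open Set

namespace Pool.Agent.Results.MP_af711c_co.LowerNLogN

/-- The cyclic successor `i + 1 (mod n)` of an index. -/
def nxt {n : ℕ} (i : Fin n) : Fin n := finRotate n i

/-- The closed polygonal curve with vertices `v 0, v 1, ..., v (n-1)`. -/
def curve {n : ℕ} (v : Fin n → ℝ × ℝ) : Set (ℝ × ℝ) :=
  ⋃ i : Fin n, segment ℝ (v i) (v (nxt i))

/-- `v` is the cyclic vertex sequence of a simple polygon with `n` vertices: the vertices are
distinct, every vertex is a genuine corner, and two different edges meet only in common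
endpoints. -/
structure IsSimplePolygon {n : ℕ} (v : Fin n → ℝ × ℝ) : Prop where
  three_le : 3 ≤ n
  injective : Function.Injective v
  corner : ∀ i, ¬ Collinear ℝ {v i, v (nxt i), v (nxt (nxt i))}
  edges : ∀ i j, i ≠ j →
    segment ℝ (v i) (v (nxt i)) ∩ segment ℝ (v j) (v (nxt j)) ⊆
      {v i, v (nxt i)} ∩ {v j, v (nxt j)}

/-- The closed region bounded by the polygonal curve: the curve together with the points whose
connected component in the complement of the curve is bounded. -/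
def region {n : ℕ} (v : Fin n → ℝ × ℝ) : Set (ℝ × ℝ) :=
  {x | x ∈ curve v ∨ Bornology.IsBounded (connectedComponentIn (curve v)ᶜ x)}

/-- The visibility graph: two vertices are adjacent iff the closed segment between them is
contained in the closed region. -/
def visGraph {n : ℕ} (v : Fin n → ℝ × ℝ) : SimpleGraph (Fin n) where
  Adj i j := i ≠ j ∧ segment ℝ (v i) (v j) ⊆ region v
  symm := ⟨fun i j h => ⟨h.1.symm, by rw [segment_symm]; exact h.2⟩⟩
  loopless := ⟨fun i h => h.1 rfl⟩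

/-! ## the vertices -/

/-- vertices of our polygon, as a sequence; index `2m+k+2` is again the origin -/
noncomputable def V (m k : ℕ) (h : ℕ → ℝ) (l : ℕ) : ℝ × ℝ :=
  if l ≤ 2 * m then ((l : ℝ) / 2, if l % 2 = 0 then 0 else h (l / 2))
  else if l ≤ 2 * m + 1 + k then
    ((m + k + 1 : ℝ) - ((l : ℝ) - (2 * m + 1)),
      -(((m + k + 1 : ℝ) - ((l : ℝ) - (2 * m + 1))) * ((l : ℝ) - (2 * m + 1))))
  else (0, 0)

variable {m k : ℕ} {h : ℕ → ℝ}

lemma V_even {i : ℕ} (hi : i ≤ m) : V m k h (2 * i) = ((i : ℝ), 0) := by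
  unfold V
  rw [if_pos (by omega), if_pos (by omega)]
  push_cast
  ext <;> simp

lemma V_odd {i : ℕ} (hi : i < m) : V m k h (2 * i + 1) = ((i : ℝ) + 1 / 2, h i) := by
  unfold V
  have h1 : (2 * i + 1) / 2 = i := by omega
  rw [if_pos (by omega), if_neg (by omega), h1]
  push_cast
  ext
  · simp; ring
  · simp

lemma V_bot {j : ℕ} (hj : j ≤ k) : V m k h (2 * m + 1 + j) =
    ((m + k + 1 : ℝ) - j, -(((m + k + 1 : ℝ) - j) * j)) := by
  unfold V
  rw [if_neg (by omega), if_pos (by omega)]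
  push_cast
  ext
  · simp
  · simp

lemma V_last : V m k h (2 * m + k + 2) = (0, 0) := by
  unfold V
  rw [if_neg (by omega), if_neg (by omega)]

/-- the polygon -/
noncomputable def P (m k : ℕ) (h : ℕ → ℝ) : Fin (2 * m + k + 2) → ℝ × ℝ := fun l => V m k h l

lemma P_nxt (l : Fin (2 * m + k + 2)) : P m k h (nxt l) = V m k h ((l : ℕ) + 1) := by
  unfold P nxt
  rw [finRotate_apply]
  by_cases hl : (l : ℕ) + 1 < 2 * m + k + 2
  · congr 1
    rw [Fin.val_add_one_of_lt' ]
    exact hl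
  · have h1 : (l : ℕ) + 1 = 2 * m + k + 2 := by omega
    have h2 : l + 1 = 0 := by
      ext
      rw [Fin.val_add]
      simp [h1]
    rw [h2, h1, V_last]
    have := V_even (m := m) (k := k) (h := h) (i := 0) (by omega)
    simpa using this

/-! ## the closed set K and the open set U -/

/-- the line through bottom vertices `j` and `j+1` -/
def chord (m k j : ℕ) (x : ℝ) : ℝ :=
  ((m + k + 1 : ℝ) - 2 * j - 1) * x - ((m + k + 1 : ℝ) - j) * ((m + k + 1 : ℝ) - j - 1)

/-- above the bottom chain -/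
def Up (m k : ℕ) : Set (ℝ × ℝ) :=
  {p | -(k : ℝ) * p.1 ≤ p.2 ∧ ∀ j : Fin k, chord m k j p.1 ≤ p.2}

def UpS (m k : ℕ) : Set (ℝ × ℝ) :=
  {p | -(k : ℝ) * p.1 < p.2 ∧ ∀ j : Fin k, chord m k j p.1 < p.2}

/-- below the two sides of spike `i` -/
def Tent (h : ℕ → ℝ) (i : ℕ) : Set (ℝ × ℝ) :=
  {p | p.2 ≤ 2 * h i * (p.1 - i) ∧ p.2 ≤ 2 * h i * (i + 1 - p.1)}

def TentS (h : ℕ → ℝ) (i : ℕ) : Set (ℝ × ℝ) :=
  {p | p.2 < 2 * h i * (p.1 - i) ∧ p.2 < 2 * h i * (i + 1 - p.1)}

def K (m k : ℕ) (h : ℕ → ℝ) : Set (ℝ × ℝ) :=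
  Up m k ∩ ({p | p.2 ≤ 0} ∪ ⋃ i : Fin m, Tent h i)

def U (m k : ℕ) (h : ℕ → ℝ) : Set (ℝ × ℝ) :=
  UpS m k ∩ ({p | p.2 < 0} ∪ ⋃ i : Fin m, TentS h i)

lemma continuous_chord (j : ℕ) : Continuous (chord m k j) := by
  unfold chord; fun_prop

lemma isClosed_Up : IsClosed (Up m k) := by
  unfold Up
  have h1 : IsClosed {p : ℝ × ℝ | -(k : ℝ) * p.1 ≤ p.2} :=
    isClosed_le (by fun_prop) (by fun_prop)
  have h2 : IsClosed {p : ℝ × ℝ | ∀ j : Fin k, chord m k j p.1 ≤ p.2} := by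
    rw [ofPred_forall]
    exact isClosed_iInter fun j =>
      isClosed_le ((continuous_chord _).comp continuous_fst) (by fun_prop)
  exact h1.inter h2

lemma isOpen_UpS : IsOpen (UpS m k) := by
  unfold UpS
  have h1 : IsOpen {p : ℝ × ℝ | -(k : ℝ) * p.1 < p.2} :=
    isOpen_lt (by fun_prop) (by fun_prop)
  have h2 : IsOpen {p : ℝ × ℝ | ∀ j : Fin k, chord m k j p.1 < p.2} := by
    rw [ofPred_forall]
    exact isOpen_iInter_of_finite fun j =>
      isOpen_lt ((continuous_chord _).comp continuous_fst) (by fun_prop)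
  exact h1.inter h2

lemma isClosed_Tent (i : ℕ) : IsClosed (Tent h i) := by
  have h1 : IsClosed {p : ℝ × ℝ | p.2 ≤ 2 * h i * (p.1 - i)} :=
    isClosed_le (by fun_prop) (by fun_prop)
  have h2 : IsClosed {p : ℝ × ℝ | p.2 ≤ 2 * h i * (i + 1 - p.1)} :=
    isClosed_le (by fun_prop) (by fun_prop)
  exact h1.inter h2

lemma isOpen_TentS (i : ℕ) : IsOpen (TentS h i) := by
  have h1 : IsOpen {p : ℝ × ℝ | p.2 < 2 * h i * (p.1 - i)} :=
    isOpen_lt (by fun_prop) (by fun_prop)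
  have h2 : IsOpen {p : ℝ × ℝ | p.2 < 2 * h i * (i + 1 - p.1)} :=
    isOpen_lt (by fun_prop) (by fun_prop)
  exact h1.inter h2

lemma isClosed_K : IsClosed (K m k h) := by
  refine isClosed_Up.inter (IsClosed.union (isClosed_le (by fun_prop) (by fun_prop)) ?_)
  exact isClosed_iUnion_of_finite fun i => isClosed_Tent _

lemma isOpen_U : IsOpen (U m k h) := by
  refine isOpen_UpS.inter (IsOpen.union (isOpen_lt (by fun_prop) (by fun_prop)) ?_)
  exact isOpen_iUnion fun i => isOpen_TentS _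

lemma U_subset_K : U m k h ⊆ K m k h := by
  rintro p ⟨⟨h1, h2⟩, h3⟩
  refine ⟨⟨h1.le, fun j => (h2 j).le⟩, ?_⟩
  rcases h3 with h3 | h3
  · exact Or.inl (le_of_lt (show p.2 < 0 from h3))
  · right
    rw [mem_iUnion] at h3 ⊢
    obtain ⟨i, hi⟩ := h3
    exact ⟨i, hi.1.le, hi.2.le⟩

/-- half-planes are convex -/
lemma convex_halfplane (a b c : ℝ) : Convex ℝ {p : ℝ × ℝ | a * p.1 + b * p.2 ≤ c} := by
  intro p hp q hq s t hs ht hst
  simp only [mem_ofPred_eq, Prod.fst_add, Prod.snd_add, Prod.smul_fst, Prod.smul_snd,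
    smul_eq_mul] at *
  have e : c = s * c + t * c := by rw [← add_mul, hst, one_mul]
  have h1 := mul_le_mul_of_nonneg_left hp hs
  have h2 := mul_le_mul_of_nonneg_left hq ht
  linarith

lemma convex_Up : Convex ℝ (Up m k) := by
  have h1 : Convex ℝ {p : ℝ × ℝ | -(k : ℝ) * p.1 ≤ p.2} := by
    convert convex_halfplane (-(k : ℝ)) (-1) 0 using 1
    ext p; simp only [mem_ofPred_eq]; constructor <;> intro h <;> linarith
  have h2 : Convex ℝ {p : ℝ × ℝ | ∀ j : Fin k, chord m k j p.1 ≤ p.2} := by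
    rw [ofPred_forall]
    refine convex_iInter fun j => ?_
    convert convex_halfplane ((m + k + 1 : ℝ) - 2 * j - 1) (-1)
      (((m + k + 1 : ℝ) - j) * ((m + k + 1 : ℝ) - j - 1)) using 1
    ext p; simp only [mem_ofPred_eq, chord]; constructor <;> intro h <;> linarith
  exact h1.inter h2

lemma convex_Tent (i : ℕ) : Convex ℝ (Tent h i) := by
  have h1 : Convex ℝ {p : ℝ × ℝ | p.2 ≤ 2 * h i * (p.1 - i)} := by
    convert convex_halfplane (-(2 * h i)) 1 (-(2 * h i * i)) using 1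
    ext p; simp only [mem_ofPred_eq]; constructor <;> intro h <;> linarith
  have h2 : Convex ℝ {p : ℝ × ℝ | p.2 ≤ 2 * h i * (i + 1 - p.1)} := by
    convert convex_halfplane (2 * h i) 1 (2 * h i * (i + 1)) using 1
    ext p; simp only [mem_ofPred_eq]; constructor <;> intro h <;> linarith
  exact h1.inter h2

lemma convex_Bot : Convex ℝ {p : ℝ × ℝ | p.2 ≤ 0} := by
  convert convex_halfplane 0 1 0 using 1
  ext p; simp only [mem_ofPred_eq]; constructor <;> intro h <;> linarith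

/-! ### membership of the vertices -/

lemma mem_Up_of_nonneg (hk : 1 ≤ k) {p : ℝ × ℝ} (h1 : 0 ≤ p.1)
    (h2 : p.1 ≤ m + k + 1) (h3 : 0 ≤ p.2) : p ∈ Up m k := by
  have hk' : (1 : ℝ) ≤ k := by exact_mod_cast hk
  refine ⟨by nlinarith, fun j => ?_⟩
  have hj : (j : ℝ) + 1 ≤ k := by exact_mod_cast j.2
  have hj0 : (0 : ℝ) ≤ (j : ℕ) := Nat.cast_nonneg _
  have hm : (0 : ℝ) ≤ m := Nat.cast_nonneg _
  refine le_trans ?_ h3
  unfold chord
  have hA : (0 : ℝ) ≤ (m + k + 1 : ℝ) - j - 1 := by linarith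
  have hB : (0 : ℝ) ≤ (m + k + 1 : ℝ) - j := by linarith
  nlinarith [mul_nonneg hA hB, mul_nonneg hj0 (sub_nonneg.2 h2), mul_nonneg hA (sub_nonneg.2 h2),
    mul_nonneg h1 hj0, mul_nonneg (add_nonneg hj0 zero_le_one) hj0,
    mul_nonneg (add_nonneg hj0 zero_le_one) h1]


lemma seg_iff {P Q p : ℝ × ℝ} (hPQ : P.1 < Q.1) :
    p ∈ segment ℝ P Q ↔ P.1 ≤ p.1 ∧ p.1 ≤ Q.1 ∧
      (p.2 - P.2) * (Q.1 - P.1) = (Q.2 - P.2) * (p.1 - P.1) := by
  have hd : 0 < Q.1 - P.1 := sub_pos.2 hPQ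
  constructor
  · rintro ⟨a, b, ha, hb, hab, rfl⟩
    have ha' : a = 1 - b := by linarith
    subst ha'
    simp only [Prod.fst_add, Prod.snd_add, Prod.smul_fst, Prod.smul_snd, smul_eq_mul]
    refine ⟨by nlinarith, by nlinarith, by ring⟩
  · rintro ⟨h1, h2, h3⟩
    refine ⟨(Q.1 - p.1) / (Q.1 - P.1), (p.1 - P.1) / (Q.1 - P.1),
      div_nonneg (by linarith) hd.le, div_nonneg (by linarith) hd.le, ?_, ?_⟩
    · field_simp; ring
    · ext
      · simp only [Prod.fst_add, Prod.smul_fst, smul_eq_mul]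
        field_simp; ring
      · simp only [Prod.snd_add, Prod.smul_snd, smul_eq_mul]
        field_simp
        linarith

lemma mem_Up_bot {j : ℕ} (hj : j ≤ k) :
    (((m + k + 1 : ℝ) - j, -(((m + k + 1 : ℝ) - j) * j)) : ℝ × ℝ) ∈ Up m k := by
  have hjk : (j : ℝ) ≤ k := by exact_mod_cast hj
  have hm : (0 : ℝ) ≤ m := Nat.cast_nonneg _
  refine ⟨?_, fun l => ?_⟩
  · show -(k : ℝ) * ((m + k + 1 : ℝ) - j) ≤ -(((m + k + 1 : ℝ) - j) * j)
    nlinarith
  · show chord m k l ((m + k + 1 : ℝ) - j) ≤ -(((m + k + 1 : ℝ) - j) * j)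
    unfold chord
    have key : (0 : ℝ) ≤ ((l : ℕ) - (j : ℝ)) * ((l : ℕ) + 1 - (j : ℝ)) := by
      rcases le_or_gt j l with h1 | h1
      · have : (j : ℝ) ≤ (l : ℕ) := by exact_mod_cast h1
        apply mul_nonneg <;> linarith
      · have : ((l : ℕ) : ℝ) + 1 ≤ j := by exact_mod_cast h1
        apply mul_nonneg_of_nonpos_of_nonpos <;> linarith
    nlinarith

lemma mem_K_of_Bot {p : ℝ × ℝ} (h1 : p ∈ Up m k) (h2 : p.2 ≤ 0) : p ∈ K m k h :=
  ⟨h1, Or.inl h2⟩

lemma mem_K_of_Tent {p : ℝ × ℝ} {i : ℕ} (hi : i < m) (h1 : p ∈ Up m k) (h2 : p ∈ Tent h i) :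
    p ∈ K m k h :=
  ⟨h1, Or.inr (mem_iUnion.2 ⟨⟨i, hi⟩, h2⟩)⟩

lemma V_even_Up (hk : 1 ≤ k) {i : ℕ} (hi : i ≤ m) : V m k h (2 * i) ∈ Up m k := by
  have hi' : (i : ℝ) ≤ m := by exact_mod_cast hi
  have hk' : (1 : ℝ) ≤ k := by exact_mod_cast hk
  rw [V_even hi]
  exact mem_Up_of_nonneg hk (Nat.cast_nonneg _) (show (i : ℝ) ≤ m + k + 1 by linarith) le_rfl

lemma V_odd_Up (hk : 1 ≤ k) (hh : ∀ i < m, 0 < h i) {i : ℕ} (hi : i < m) :
    V m k h (2 * i + 1) ∈ Up m k := by
  have hi' : (i : ℝ) + 1 ≤ m := by exact_mod_cast hi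
  have hi0 : (0 : ℝ) ≤ i := Nat.cast_nonneg _
  have hk' : (1 : ℝ) ≤ k := by exact_mod_cast hk
  rw [V_odd hi]
  exact mem_Up_of_nonneg hk (show (0 : ℝ) ≤ i + 1 / 2 by linarith)
    (show (i : ℝ) + 1 / 2 ≤ m + k + 1 by linarith) (hh i hi).le

/-- case analysis of edges -/
lemma edge_cases (l : ℕ) (hl : l < 2 * m + k + 2) :
    (∃ i < m, l = 2 * i) ∨ (∃ i < m, l = 2 * i + 1) ∨ l = 2 * m ∨
    (∃ j < k, l = 2 * m + 1 + j) ∨ l = 2 * m + 1 + k := by
  rcases lt_or_ge l (2 * m) with h1 | h1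
  · rcases Nat.even_or_odd' l with ⟨i, hi | hi⟩
    · exact Or.inl ⟨i, by omega, hi⟩
    · exact Or.inr (Or.inl ⟨i, by omega, hi⟩)
  · rcases eq_or_lt_of_le h1 with h2 | h2
    · exact Or.inr (Or.inr (Or.inl h2.symm))
    · rcases lt_or_ge l (2 * m + 1 + k) with h3 | h3
      · exact Or.inr (Or.inr (Or.inr (Or.inl ⟨l - (2 * m + 1), by omega, by omega⟩)))
      · exact Or.inr (Or.inr (Or.inr (Or.inr (by omega))))

lemma edge_sub_K (hk : 1 ≤ k) (hh : ∀ i < m, 0 < h i) {l : ℕ} (hl : l < 2 * m + k + 2) :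
    segment ℝ (V m k h l) (V m k h (l + 1)) ⊆ K m k h := by
  rcases edge_cases l hl with ⟨i, hi, rfl⟩ | ⟨i, hi, rfl⟩ | rfl | ⟨j, hj, rfl⟩ | rfl
  · have h1 : segment ℝ (V m k h (2 * i)) (V m k h (2 * i + 1)) ⊆ Up m k ∩ Tent h i := by
      refine (convex_Up.inter (convex_Tent i)).segment_subset ⟨V_even_Up hk hi.le, ?_⟩
        ⟨V_odd_Up hk hh hi, ?_⟩
      · rw [V_even hi.le]
        have := hh i hi
        refine ⟨?_, ?_⟩ <;> simp
        linarith
      · rw [V_odd hi]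
        refine ⟨?_, ?_⟩ <;> simp <;> linarith
    exact fun p hp => mem_K_of_Tent hi (h1 hp).1 (h1 hp).2
  · have h1 : segment ℝ (V m k h (2 * i + 1)) (V m k h (2 * i + 1 + 1)) ⊆ Up m k ∩ Tent h i := by
      have e : 2 * i + 1 + 1 = 2 * (i + 1) := by ring
      rw [e]
      refine (convex_Up.inter (convex_Tent i)).segment_subset ⟨V_odd_Up hk hh hi, ?_⟩
        ⟨V_even_Up hk hi, ?_⟩
      · rw [V_odd hi]
        refine ⟨?_, ?_⟩ <;> simp <;> linarith
      · rw [V_even hi]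
        have := hh i hi
        refine ⟨?_, ?_⟩ <;> simp
        linarith
    exact fun p hp => mem_K_of_Tent hi (h1 hp).1 (h1 hp).2
  · have h1 : segment ℝ (V m k h (2 * m)) (V m k h (2 * m + 1)) ⊆ Up m k ∩ {p | p.2 ≤ 0} := by
      refine (convex_Up.inter convex_Bot).segment_subset ⟨V_even_Up hk le_rfl, ?_⟩ ?_
      · rw [V_even le_rfl]; simp
      · have := V_bot (m := m) (k := k) (h := h) (j := 0) (Nat.zero_le _)
        rw [add_zero] at this
        rw [this]
        exact ⟨mem_Up_bot (Nat.zero_le _), by simp⟩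
    exact fun p hp => mem_K_of_Bot (h1 hp).1 (h1 hp).2
  · have h1 : segment ℝ (V m k h (2 * m + 1 + j)) (V m k h (2 * m + 1 + j + 1)) ⊆
        Up m k ∩ {p | p.2 ≤ 0} := by
      rw [add_assoc (2 * m + 1) j 1]
      have hj' : (j : ℝ) + 1 ≤ k := by exact_mod_cast hj
      have hj0 : (0 : ℝ) ≤ j := Nat.cast_nonneg _
      have hm0 : (0 : ℝ) ≤ m := Nat.cast_nonneg _
      rw [V_bot hj.le, V_bot hj]
      refine (convex_Up.inter convex_Bot).segment_subset ⟨mem_Up_bot hj.le, ?_⟩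
        ⟨mem_Up_bot hj, ?_⟩
      · show -(((m + k + 1 : ℝ) - j) * j) ≤ 0
        nlinarith
      · show -(((m + k + 1 : ℝ) - (j + 1 : ℕ)) * (j + 1 : ℕ)) ≤ 0
        push_cast
        nlinarith
    exact fun p hp => mem_K_of_Bot (h1 hp).1 (h1 hp).2
  · have h1 : segment ℝ (V m k h (2 * m + 1 + k)) (V m k h (2 * m + 1 + k + 1)) ⊆
        Up m k ∩ {p | p.2 ≤ 0} := by
      have e : 2 * m + 1 + k + 1 = 2 * m + k + 2 := by ring
      rw [e, V_last, V_bot le_rfl]
      have hm0 : (0 : ℝ) ≤ m := Nat.cast_nonneg _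
      have hk0 : (0 : ℝ) ≤ k := Nat.cast_nonneg _
      refine (convex_Up.inter convex_Bot).segment_subset ⟨mem_Up_bot le_rfl, ?_⟩
        ⟨mem_Up_of_nonneg hk le_rfl (show (0 : ℝ) ≤ m + k + 1 by linarith) le_rfl, by simp⟩
      show -(((m + k + 1 : ℝ) - k) * k) ≤ 0
      nlinarith
    exact fun p hp => mem_K_of_Bot (h1 hp).1 (h1 hp).2

lemma curve_P : curve (P m k h) =
    ⋃ l : Fin (2 * m + k + 2), segment ℝ (V m k h l) (V m k h ((l : ℕ) + 1)) := by
  unfold curve
  simp only [P_nxt]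
  rfl

lemma curve_sub_K (hk : 1 ≤ k) (hh : ∀ i < m, 0 < h i) : curve (P m k h) ⊆ K m k h := by
  rw [curve_P]
  exact iUnion_subset fun l => edge_sub_K hk hh l.2

lemma edge_sub_curve {l : ℕ} (hl : l < 2 * m + k + 2) :
    segment ℝ (V m k h l) (V m k h (l + 1)) ⊆ curve (P m k h) := by
  rw [curve_P]
  exact subset_iUnion (fun l : Fin (2 * m + k + 2) =>
    segment ℝ (V m k h l) (V m k h ((l : ℕ) + 1))) ⟨l, hl⟩


/-- from the chord inequalities: `0 ≤ x ≤ m+k+1` when `y ≤ 0` -/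
lemma x_bounds (hk : 1 ≤ k) {p : ℝ × ℝ} (h1 : p ∈ Up m k) (h2 : p.2 ≤ 0) :
    0 ≤ p.1 ∧ p.1 ≤ m + k + 1 := by
  have hk' : (1 : ℝ) ≤ k := by exact_mod_cast hk
  have hm0 : (0 : ℝ) ≤ m := Nat.cast_nonneg _
  refine ⟨by nlinarith [h1.1], ?_⟩
  have := h1.2 ⟨0, hk⟩
  unfold chord at this
  push_cast at this
  by_contra hc
  push Not at hc
  nlinarith

lemma tent_x {i : ℕ} (hi : 0 < h i) {p : ℝ × ℝ} (h1 : p ∈ Tent h i) (h2 : 0 ≤ p.2) :
    (i : ℝ) ≤ p.1 ∧ p.1 ≤ i + 1 := by
  constructor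
  · by_contra hc
    push Not at hc
    have := h1.1
    nlinarith
  · by_contra hc
    push Not at hc
    have := h1.2
    nlinarith

lemma chord_neg (j : Fin k) {x : ℝ} (h1 : 0 < x) (h2 : x < m + k + 1) :
    chord m k j x < 0 := by
  have hj : ((j : ℕ) : ℝ) + 1 ≤ k := by exact_mod_cast j.2
  have hj0 : (0 : ℝ) ≤ (j : ℕ) := Nat.cast_nonneg _
  have hm : (0 : ℝ) ≤ m := Nat.cast_nonneg _
  unfold chord
  have hA : (0 : ℝ) < (m + k + 1 : ℝ) - j - 1 := by linarith
  have hB : (0 : ℝ) < (m + k + 1 : ℝ) - j := by linarith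
  nlinarith [mul_pos hA hB, mul_nonneg hj0 (sub_nonneg.2 h2.le), mul_pos hA (sub_pos.2 h2),
    mul_nonneg h1.le hj0, mul_nonneg (add_nonneg hj0 zero_le_one) hj0,
    mul_nonneg (add_nonneg hj0 zero_le_one) h1.le]

lemma K_diff_U (hk : 1 ≤ k) (hh : ∀ i < m, 0 < h i) {p : ℝ × ℝ} (hK : p ∈ K m k h)
    (hU : p ∉ U m k h) : p ∈ curve (P m k h) := by
  have hk' : (1 : ℝ) ≤ k := by exact_mod_cast hk
  have hm0 : (0 : ℝ) ≤ m := Nat.cast_nonneg _
  obtain ⟨hup, hdn⟩ := hK
  by_cases hS : p ∈ UpS m k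
  · -- on the top chain
    have h1 : 0 ≤ p.2 := by
      by_contra hc
      push Not at hc
      exact hU ⟨hS, Or.inl hc⟩
    have h2 : ∀ i < m, p ∉ TentS h i := fun i hi hc =>
      hU ⟨hS, Or.inr (mem_iUnion.2 ⟨⟨i, hi⟩, hc⟩)⟩
    by_cases h3 : p.2 = 0
    · obtain ⟨hx0, hx1⟩ := x_bounds hk hup h3.le
      by_cases hxm : (m : ℝ) ≤ p.1
      · apply edge_sub_curve (l := 2 * m) (by omega)
        have e := V_bot (m := m) (k := k) (h := h) (j := 0) (Nat.zero_le _)
        rw [add_zero] at e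
        rw [V_even le_rfl, e]
        rw [seg_iff (show (m : ℝ) < (m + k + 1 : ℝ) - (0 : ℕ) by push_cast; linarith)]
        refine ⟨hxm, by push_cast; linarith, by simp [h3]⟩
      · push Not at hxm
        obtain ⟨i, hi1, hi2⟩ : ∃ i : ℕ, (i : ℝ) ≤ p.1 ∧ p.1 < i + 1 :=
          ⟨⌊p.1⌋₊, Nat.floor_le hx0, Nat.lt_floor_add_one _⟩
        have him : i < m := by exact_mod_cast lt_of_le_of_lt hi1 hxm
        have hi3 : p.1 = i := by
          by_contra hne
          have hlt : (i : ℝ) < p.1 := lt_of_le_of_ne hi1 (Ne.symm hne)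
          apply h2 i him
          have hp := hh i him
          refine ⟨?_, ?_⟩
          · show p.2 < 2 * h i * (p.1 - i)
            rw [h3]; apply mul_pos <;> linarith
          · show p.2 < 2 * h i * (i + 1 - p.1)
            rw [h3]; apply mul_pos <;> linarith
        apply edge_sub_curve (l := 2 * i) (by omega)
        have : p = V m k h (2 * i) := by
          rw [V_even him.le]; ext
          · exact hi3
          · exact h3
        rw [this]
        exact left_mem_segment _ _ _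
    · have hpos : 0 < p.2 := lt_of_le_of_ne h1 (Ne.symm h3)
      rcases hdn with hdn | hdn
      · exact absurd (show p.2 ≤ 0 from hdn) (not_le.2 hpos)
      · obtain ⟨⟨i, hi⟩, hT⟩ := mem_iUnion.1 hdn
        have hp := hh i hi
        have hT' := h2 i hi
        obtain ⟨hx0, hx1⟩ := tent_x hp hT h1
        have ha : p.2 ≤ 2 * h i * (p.1 - i) := hT.1
        have hb : p.2 ≤ 2 * h i * (i + 1 - p.1) := hT.2
        have hor : p.2 = 2 * h i * (p.1 - i) ∨ p.2 = 2 * h i * (i + 1 - p.1) := by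
          by_contra hc
          push Not at hc
          exact hT' ⟨lt_of_le_of_ne ha hc.1, lt_of_le_of_ne hb hc.2⟩
        rcases hor with he | he
        · apply edge_sub_curve (l := 2 * i) (by omega)
          rw [V_even hi.le, V_odd hi]
          rw [seg_iff (show (i : ℝ) < i + 1 / 2 by linarith)]
          refine ⟨hx0, ?_, ?_⟩
          · show p.1 ≤ i + 1 / 2
            nlinarith
          · show (p.2 - 0) * ((i : ℝ) + 1 / 2 - i) = (h i - 0) * (p.1 - i)
            rw [he]; ring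
        · apply edge_sub_curve (l := 2 * i + 1) (by omega)
          have e : 2 * i + 1 + 1 = 2 * (i + 1) := by ring
          rw [e, V_even hi, V_odd hi]
          rw [seg_iff (show (i : ℝ) + 1 / 2 < (i + 1 : ℕ) by push_cast; linarith)]
          refine ⟨?_, ?_, ?_⟩
          · show (i : ℝ) + 1 / 2 ≤ p.1
            nlinarith
          · show p.1 ≤ (i + 1 : ℕ)
            push_cast; exact hx1
          · show (p.2 - h i) * (((i + 1 : ℕ) : ℝ) - (i + 1 / 2)) = (0 - h i) * (p.1 - (i + 1 / 2))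
            rw [he]; push_cast; ring
  · -- on the bottom chain
    have hor : (-(k : ℝ) * p.1 = p.2) ∨ ∃ j : Fin k, chord m k j p.1 = p.2 := by
      by_contra hc
      push Not at hc
      exact hS ⟨lt_of_le_of_ne hup.1 hc.1, fun j => lt_of_le_of_ne (hup.2 j) (hc.2 j)⟩
    have hy : p.2 ≤ 0 := by
      by_contra hpos
      push Not at hpos
      rcases hdn with hdn | hdn
      · exact absurd (show p.2 ≤ 0 from hdn) (not_le.2 hpos)
      · obtain ⟨⟨i, hi⟩, hT⟩ := mem_iUnion.1 hdn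
        have hp := hh i hi
        have ha : p.2 ≤ 2 * h i * (p.1 - i) := hT.1
        have hb : p.2 ≤ 2 * h i * (i + 1 - p.1) := hT.2
        have him : (i : ℝ) + 1 ≤ m := by exact_mod_cast hi
        have hi0 : (0 : ℝ) ≤ i := Nat.cast_nonneg _
        have hx0 : 0 < p.1 := by nlinarith
        have hx1 : p.1 < m + k + 1 := by nlinarith
        rcases hor with he | ⟨j, he⟩
        · nlinarith
        · have := chord_neg j hx0 hx1
          linarith
    obtain ⟨hx0, hx1⟩ := x_bounds hk hup hy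
    rcases hor with he | ⟨⟨j, hj⟩, he⟩
    · apply edge_sub_curve (l := 2 * m + 1 + k) (by omega)
      have e : 2 * m + 1 + k + 1 = 2 * m + k + 2 := by ring
      rw [e, V_last, V_bot le_rfl, segment_symm]
      rw [seg_iff (show (0 : ℝ) < (m + k + 1 : ℝ) - k by linarith)]
      refine ⟨hx0, ?_, ?_⟩
      · show p.1 ≤ (m + k + 1 : ℝ) - k
        have := hup.2 ⟨k - 1, by omega⟩
        unfold chord at this
        rw [show ((k - 1 : ℕ) : ℝ) = (k : ℝ) - 1 by push_cast [Nat.cast_sub hk]; ring] at this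
        nlinarith
      · show (p.2 - 0) * ((m + k + 1 : ℝ) - k - 0) = (-(((m + k + 1 : ℝ) - k) * k) - 0) * (p.1 - 0)
        rw [← he]; ring
    · apply edge_sub_curve (l := 2 * m + 1 + j) (by omega)
      have hj' : (j : ℝ) + 1 ≤ k := by exact_mod_cast hj
      have hj0 : (0 : ℝ) ≤ j := Nat.cast_nonneg _
      rw [add_assoc (2 * m + 1) j 1]
      rw [V_bot hj.le, V_bot hj, segment_symm]
      rw [seg_iff (show (m + k + 1 : ℝ) - ((j + 1 : ℕ) : ℝ) < (m + k + 1 : ℝ) - j by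
        push_cast; linarith)]
      unfold chord at he
      simp only at he
      refine ⟨?_, ?_, ?_⟩
      · show (m + k + 1 : ℝ) - ((j + 1 : ℕ) : ℝ) ≤ p.1
        push_cast
        rcases Nat.lt_or_ge (j + 1) k with h1 | h1
        · have := hup.2 ⟨j + 1, h1⟩
          unfold chord at this
          push_cast at this
          nlinarith
        · have hjk : (j : ℝ) + 1 = k := by exact_mod_cast (show j + 1 = k by omega)
          have := hup.1
          rw [← he, ← hjk] at this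
          have h5 : 0 < (m : ℝ) + 2 := by linarith
          rw [← hjk]
          nlinarith
      · show p.1 ≤ (m + k + 1 : ℝ) - j
        rcases Nat.eq_zero_or_pos j with h1 | h1
        · subst h1
          push_cast
          linarith
        · have := hup.2 ⟨j - 1, by omega⟩
          unfold chord at this
          rw [show ((j - 1 : ℕ) : ℝ) = (j : ℝ) - 1 by push_cast [Nat.cast_sub h1]; ring] at this
          nlinarith
      · show (p.2 - -(((m + k + 1 : ℝ) - (j + 1 : ℕ)) * (j + 1 : ℕ))) *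
          ((m + k + 1 : ℝ) - j - ((m + k + 1 : ℝ) - (j + 1 : ℕ))) =
          (-(((m + k + 1 : ℝ) - j) * j) - -(((m + k + 1 : ℝ) - (j + 1 : ℕ)) * (j + 1 : ℕ))) *
          (p.1 - ((m + k + 1 : ℝ) - (j + 1 : ℕ)))
        rw [← he]; push_cast; ring


lemma K_bounded (hk : 1 ≤ k) (hh : ∀ i < m, 0 < h i) : Bornology.IsBounded (K m k h) := by
  have hk' : (1 : ℝ) ≤ k := by exact_mod_cast hk
  have hm0 : (0 : ℝ) ≤ m := Nat.cast_nonneg _
  obtain ⟨H, hH⟩ : ∃ H : ℝ, ∀ i < m, h i ≤ H := by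
    refine ⟨∑ i ∈ Finset.range m, h i, fun i hi => ?_⟩
    exact Finset.single_le_sum (f := h) (fun j hj => (hh j (Finset.mem_range.1 hj)).le)
      (Finset.mem_range.2 hi)
  refine (Metric.isBounded_Icc ((0 : ℝ), -(k : ℝ) * (m + k + 1)) ((m + k + 1 : ℝ), max H 0)).subset ?_
  rintro p ⟨hup, hdn⟩
  rcases le_or_gt p.2 0 with hy | hy
  · obtain ⟨hx0, hx1⟩ := x_bounds hk hup hy
    refine ⟨⟨hx0, ?_⟩, ⟨hx1, le_trans hy (le_max_right _ _)⟩⟩
    show -(k : ℝ) * (m + k + 1) ≤ p.2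
    have := hup.1
    nlinarith
  · rcases hdn with hdn | hdn
    · exact absurd (show p.2 ≤ 0 from hdn) (not_le.2 hy)
    · obtain ⟨⟨i, hi⟩, hT⟩ := mem_iUnion.1 hdn
      have hp := hh i hi
      have him : (i : ℝ) + 1 ≤ m := by exact_mod_cast hi
      have hi0 : (0 : ℝ) ≤ i := Nat.cast_nonneg _
      obtain ⟨hx0, hx1⟩ := tent_x hp hT hy.le
      have ha : p.2 ≤ 2 * h i * (p.1 - i) := hT.1
      have hb : p.2 ≤ 2 * h i * (i + 1 - p.1) := hT.2
      refine ⟨⟨by show (0 : ℝ) ≤ p.1; linarith, ?_⟩,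
        ⟨by show p.1 ≤ (m + k + 1 : ℝ); linarith, le_trans ?_ (le_max_left _ _)⟩⟩
      · show -(k : ℝ) * (m + k + 1) ≤ p.2
        nlinarith
      · have := hH i hi
        show p.2 ≤ H
        nlinarith

lemma K_sub_region (hk : 1 ≤ k) (hh : ∀ i < m, 0 < h i) : K m k h ⊆ region (P m k h) := by
  intro p hp
  by_cases hc : p ∈ curve (P m k h)
  · exact Or.inl hc
  right
  have hpU : p ∈ U m k h := by
    by_contra hU
    exact hc (K_diff_U hk hh hp hU)
  refine (K_bounded hk hh).subset ?_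
  refine subset_trans ?_ U_subset_K
  have hpre : IsPreconnected (connectedComponentIn (curve (P m k h))ᶜ p) :=
    isPreconnected_connectedComponentIn
  refine IsPreconnected.subset_left_of_subset_union (isOpen_U (m := m) (k := k) (h := h))
    (isClosed_K (m := m) (k := k) (h := h)).isOpen_compl ?_ ?_ ?_ hpre
  · exact disjoint_left.2 fun x hx hx' => hx' (U_subset_K hx)
  · intro x hx
    have hx' : x ∈ (curve (P m k h))ᶜ := connectedComponentIn_subset _ _ hx
    by_cases hK : x ∈ K m k h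
    · left
      by_contra hU
      exact hx' (K_diff_U hk hh hK hU)
    · exact Or.inr hK
  · exact ⟨p, mem_connectedComponentIn hc, hpU⟩

/-- points above a tip are outside -/
lemma not_region (hk : 1 ≤ k) (hh : ∀ i < m, 0 < h i) (i : ℕ) {y : ℝ} (hy : 0 < y) :
    ((i : ℝ), y) ∉ region (P m k h) := by
  have hray : ∀ y' : ℝ, 0 < y' → ((i : ℝ), y') ∉ curve (P m k h) := by
    intro y' hy' hc
    obtain ⟨-, hdn⟩ := curve_sub_K hk hh hc
    rcases hdn with hdn | hdn
    · exact absurd (show y' ≤ 0 from hdn) (not_le.2 hy')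
    · obtain ⟨⟨j, hj⟩, hT⟩ := mem_iUnion.1 hdn
      have hp := hh j hj
      have ha : y' ≤ 2 * h j * ((i : ℝ) - j) := hT.1
      have hb : y' ≤ 2 * h j * (j + 1 - (i : ℝ)) := hT.2
      rcases Nat.lt_or_ge j i with h1 | h1
      · have : (j : ℝ) + 1 ≤ i := by exact_mod_cast h1
        nlinarith
      · have : (i : ℝ) ≤ j := by exact_mod_cast h1
        nlinarith
  rintro (hc | hb)
  · exact hray y hy hc
  · have hS : ((fun t : ℝ => ((i : ℝ), t)) '' Ici y) ⊆
        connectedComponentIn (curve (P m k h))ᶜ ((i : ℝ), y) := by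
      apply IsPreconnected.subset_connectedComponentIn
      · exact isPreconnected_Ici.image _ (by fun_prop)
      · exact ⟨y, self_mem_Ici, rfl⟩
      · rintro _ ⟨t, ht, rfl⟩
        exact hray t (lt_of_lt_of_le hy ht)
    have hb' := hb.subset hS
    have hb2 := hb'.image_snd
    rw [image_image] at hb2
    simp only [image_id'] at hb2
    exact not_bddAbove_Ici y hb2.bddAbove


/-! ## the polygon is simple -/

lemma V_zero : V m k h 0 = (0, 0) := by
  have := V_even (m := m) (k := k) (h := h) (i := 0) (Nat.zero_le _)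
  simpa using this

lemma V_corner : V m k h (2 * m + 1) = ((m + k + 1 : ℝ), 0) := by
  have := V_bot (m := m) (k := k) (h := h) (j := 0) (Nat.zero_le _)
  rw [add_zero] at this
  rw [this]
  ext <;> simp

lemma top_step (hk : 1 ≤ k) {l : ℕ} (hl : l ≤ 2 * m) :
    (V m k h l).1 < (V m k h (l + 1)).1 := by
  have hk' : (1 : ℝ) ≤ k := by exact_mod_cast hk
  rcases eq_or_lt_of_le hl with h1 | h1
  · rw [h1, V_corner, V_even le_rfl]
    show (m : ℝ) < m + k + 1
    linarith
  · rcases Nat.even_or_odd' l with ⟨i, hi | hi⟩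
    · rw [hi, V_even (by omega), V_odd (by omega)]
      show (i : ℝ) < i + 1 / 2
      linarith
    · rw [hi, V_odd (by omega), show 2 * i + 1 + 1 = 2 * (i + 1) by ring, V_even (by omega)]
      show (i : ℝ) + 1 / 2 < (i + 1 : ℕ)
      push_cast
      linarith

lemma bot_step {l : ℕ} (h1 : 2 * m + 1 ≤ l) (h2 : l ≤ 2 * m + 1 + k) :
    (V m k h (l + 1)).1 < (V m k h l).1 := by
  have hm0 : (0 : ℝ) ≤ m := Nat.cast_nonneg _
  obtain ⟨j, rfl⟩ : ∃ j, l = 2 * m + 1 + j := ⟨l - (2 * m + 1), by omega⟩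
  rcases eq_or_lt_of_le (show j ≤ k by omega) with h3 | h3
  · rw [h3, show 2 * m + 1 + k + 1 = 2 * m + k + 2 by ring, V_last, V_bot le_rfl]
    show (0 : ℝ) < (m + k + 1 : ℝ) - k
    linarith
  · rw [add_assoc (2 * m + 1) j 1, V_bot h3.le, V_bot h3]
    show (m + k + 1 : ℝ) - (j + 1 : ℕ) < (m + k + 1 : ℝ) - j
    push_cast
    linarith

lemma top_mono (hk : 1 ≤ k) {l l' : ℕ} (h1 : l < l') (h2 : l' ≤ 2 * m + 1) :
    (V m k h l).1 < (V m k h l').1 := by
  induction l', h1 using Nat.le_induction with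
  | base => exact top_step hk (by omega)
  | succ q hq ih => exact lt_trans (ih (by omega)) (top_step hk (by omega))

lemma bot_mono {l l' : ℕ} (h0 : 2 * m + 1 ≤ l) (h1 : l < l')
    (h2 : l' ≤ 2 * m + k + 2) : (V m k h l').1 < (V m k h l).1 := by
  induction l', h1 using Nat.le_induction with
  | base => exact bot_step h0 (by omega)
  | succ q hq ih => exact lt_trans (bot_step (by omega) (by omega)) (ih (by omega))

lemma top_y (hh : ∀ i < m, 0 < h i) {l : ℕ} (hl : l ≤ 2 * m + 1) : 0 ≤ (V m k h l).2 := by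
  rcases eq_or_lt_of_le hl with h1 | h1
  · rw [h1, V_corner]
  · rcases Nat.even_or_odd' l with ⟨i, hi | hi⟩
    · rw [hi, V_even (by omega)]
    · rw [hi, V_odd (by omega)]
      exact (hh i (by omega)).le

lemma bot_y {l : ℕ} (h1 : 2 * m + 1 < l) (h2 : l ≤ 2 * m + 1 + k) : (V m k h l).2 < 0 := by
  have hm0 : (0 : ℝ) ≤ m := Nat.cast_nonneg _
  obtain ⟨j, rfl⟩ : ∃ j, l = 2 * m + 1 + j := ⟨l - (2 * m + 1), by omega⟩
  have hj1 : 1 ≤ j := by omega
  have hj2 : j ≤ k := by omega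
  have hj1' : (1 : ℝ) ≤ j := by exact_mod_cast hj1
  have hj2' : (j : ℝ) ≤ k := by exact_mod_cast hj2
  rw [V_bot hj2]
  show -(((m + k + 1 : ℝ) - j) * j) < 0
  nlinarith

lemma seg_y_nonneg {A B p : ℝ × ℝ} (hp : p ∈ segment ℝ A B) (hA : 0 ≤ A.2) (hB : 0 ≤ B.2) :
    0 ≤ p.2 := by
  obtain ⟨a, b, ha, hb, hab, rfl⟩ := hp
  simp only [Prod.snd_add, Prod.smul_snd, smul_eq_mul]
  positivity

lemma seg_y_nonpos {A B p : ℝ × ℝ} (hp : p ∈ segment ℝ A B) (hA : A.2 ≤ 0) (hB : B.2 < 0) :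
    p.2 ≤ 0 ∧ (p.2 = 0 → p = A ∧ A.2 = 0) := by
  obtain ⟨a, b, ha, hb, hab, rfl⟩ := hp
  simp only [Prod.snd_add, Prod.smul_snd, smul_eq_mul]
  constructor
  · nlinarith
  · intro he
    have hb0 : b = 0 := by
      by_contra hne
      have : 0 < b := lt_of_le_of_ne hb (Ne.symm hne)
      nlinarith
    have ha1 : a = 1 := by linarith
    subst hb0 ha1
    simp at he ⊢
    exact he

/-- points of bottom edges -/
lemma bot_edge (hk : 1 ≤ k) {l : ℕ} (h1 : 2 * m + 1 ≤ l) (h2 : l < 2 * m + k + 2) {p : ℝ × ℝ}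
    (hp : p ∈ segment ℝ (V m k h l) (V m k h (l + 1))) :
    p.2 ≤ 0 ∧ (p.2 = 0 → (l = 2 * m + 1 ∧ p = V m k h (2 * m + 1)) ∨
      (l = 2 * m + k + 1 ∧ p = V m k h (2 * m + k + 2))) := by
  rcases eq_or_lt_of_le (show l ≤ 2 * m + k + 1 by omega) with h3 | h3
  · have hneg : (V m k h l).2 < 0 := bot_y (by omega) (by omega)
    rw [segment_symm] at hp
    have e : l + 1 = 2 * m + k + 2 := by omega
    rw [e] at hp
    have := seg_y_nonpos hp (by rw [V_last]) hneg
    exact ⟨this.1, fun he => Or.inr ⟨h3, (this.2 he).1⟩⟩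
  · have hneg : (V m k h (l + 1)).2 < 0 := bot_y (by omega) (by omega)
    rcases eq_or_lt_of_le h1 with h4 | h4
    · have h0 : (V m k h l).2 = 0 := by rw [← h4, V_corner]
      have := seg_y_nonpos hp h0.le hneg
      refine ⟨this.1, fun he => Or.inl ⟨h4.symm, ?_⟩⟩
      rw [(this.2 he).1, h4]
    · have h0 : (V m k h l).2 < 0 := bot_y (by omega) (by omega)
      have := seg_y_nonpos hp h0.le hneg
      refine ⟨this.1, fun he => ?_⟩
      exact absurd (this.2 he).2 h0.ne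

lemma seg_x {A B p : ℝ × ℝ} (hAB : A.1 < B.1) (hp : p ∈ segment ℝ A B) :
    A.1 ≤ p.1 ∧ p.1 ≤ B.1 ∧ (p.1 = A.1 → p = A) ∧ (p.1 = B.1 → p = B) := by
  obtain ⟨a, b, ha, hb, hab, rfl⟩ := hp
  have ha' : a = 1 - b := by linarith
  subst ha'
  simp only [Prod.fst_add, Prod.smul_fst, smul_eq_mul]
  refine ⟨by nlinarith, by nlinarith, ?_, ?_⟩
  · intro he
    have hb0 : b = 0 := by
      by_contra hne
      have : 0 < b := lt_of_le_of_ne hb (Ne.symm hne)
      nlinarith
    subst hb0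
    simp
  · intro he
    have hb1 : b = 1 := by
      by_contra hne
      have : b < 1 := lt_of_le_of_ne (by linarith) hne
      nlinarith
    subst hb1
    simp

lemma edges_lt (hk : 1 ≤ k) (hh : ∀ i < m, 0 < h i) {i j : ℕ} (hij : i < j)
    (hj : j < 2 * m + k + 2) {p : ℝ × ℝ}
    (hp : p ∈ segment ℝ (V m k h i) (V m k h (i + 1)))
    (hq : p ∈ segment ℝ (V m k h j) (V m k h (j + 1))) :
    (p = V m k h i ∨ p = V m k h (i + 1)) ∧ (p = V m k h j ∨ p = V m k h (j + 1)) := by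
  have hk' : (1 : ℝ) ≤ k := by exact_mod_cast hk
  have hm0 : (0 : ℝ) ≤ m := Nat.cast_nonneg _
  rcases Nat.lt_or_ge (2 * m) j with h1 | h1
  · rcases Nat.lt_or_ge (2 * m) i with h2 | h2
    · -- both bottom
      have hi := bot_step (m := m) (k := k) (h := h) (show 2 * m + 1 ≤ i by omega) (by omega)
      have hj' := bot_step (m := m) (k := k) (h := h) (show 2 * m + 1 ≤ j by omega) (by omega)
      rw [segment_symm] at hp hq
      obtain ⟨a1, a2, a3, a4⟩ := seg_x hi hp
      obtain ⟨b1, b2, b3, b4⟩ := seg_x hj' hq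
      rcases eq_or_lt_of_le (show i + 1 ≤ j by omega) with h3 | h3
      · have e1 : p.1 = (V m k h (i + 1)).1 := by
          rw [← h3] at b2
          linarith
        have e2 : p.1 = (V m k h j).1 := by rw [e1, h3]
        exact ⟨Or.inr (a3 e1), Or.inl (b4 e2)⟩
      · exfalso
        have := bot_mono (m := m) (k := k) (h := h) (show 2 * m + 1 ≤ i + 1 by omega) h3 (by omega)
        linarith
    · -- i top, j bottom
      have hi := top_step (m := m) (h := h) hk h2
      obtain ⟨a1, a2, a3, a4⟩ := seg_x hi hp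
      have hy0 : 0 ≤ p.2 := seg_y_nonneg hp (top_y hh (by omega)) (top_y hh (by omega))
      obtain ⟨c1, c2⟩ := bot_edge hk h1 hj hq
      have hy : p.2 = 0 := le_antisymm c1 hy0
      rcases c2 hy with ⟨hj1, hpe⟩ | ⟨hj1, hpe⟩
      · have hx : p.1 = m + k + 1 := by rw [hpe, V_corner]
        have hi2 : i = 2 * m := by
          by_contra hne
          have := top_mono (m := m) (h := h) hk (show i + 1 < 2 * m + 1 by omega) le_rfl
          rw [V_corner] at this
          simp only at this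
          linarith
        subst hi2
        refine ⟨Or.inr hpe, Or.inl ?_⟩
        rw [hj1]; exact hpe
      · have hx : p.1 = 0 := by rw [hpe, V_last]
        have hi2 : i = 0 := by
          by_contra hne
          have := top_mono (m := m) (h := h) hk (show 0 < i by omega) (by omega)
          rw [V_zero] at this
          simp only at this
          linarith
        subst hi2
        refine ⟨Or.inl ?_, Or.inr ?_⟩
        · rw [hpe, V_last, V_zero]
        · rw [hj1]; exact hpe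
  · -- both top
    have hi := top_step (m := m) (h := h) hk (show i ≤ 2 * m by omega)
    have hj' := top_step (m := m) (h := h) hk h1
    obtain ⟨a1, a2, a3, a4⟩ := seg_x hi hp
    obtain ⟨b1, b2, b3, b4⟩ := seg_x hj' hq
    rcases eq_or_lt_of_le (show i + 1 ≤ j by omega) with h3 | h3
    · have e1 : p.1 = (V m k h (i + 1)).1 := by
        rw [← h3] at b1
        linarith
      have e2 : p.1 = (V m k h j).1 := by rw [e1, h3]
      exact ⟨Or.inr (a4 e1), Or.inl (b3 e2)⟩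
    · exfalso
      have := top_mono (m := m) (h := h) hk h3 (by omega)
      linarith

lemma P_injective (hk : 1 ≤ k) (hh : ∀ i < m, 0 < h i) : Function.Injective (P m k h) := by
  have key : ∀ i j : ℕ, i < j → j < 2 * m + k + 2 → V m k h i ≠ V m k h j := by
    intro i j hij hj he
    rcases Nat.lt_or_ge (2 * m + 1) j with h1 | h1
    · rcases Nat.lt_or_ge (2 * m + 1) i with h2 | h2
      · have := bot_mono (m := m) (k := k) (h := h) (show 2 * m + 1 ≤ i by omega) hij hj.le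
        rw [he] at this
        exact lt_irrefl _ this
      · have a := top_y (k := k) hh h2
        have b := bot_y (m := m) (k := k) (h := h) h1 (by omega)
        rw [he] at a
        linarith
    · have := top_mono (m := m) (h := h) hk hij h1
      rw [he] at this
      exact lt_irrefl _ this
  intro i j he
  by_contra hne
  rcases lt_or_gt_of_ne hne with h1 | h1
  · exact key i j h1 j.2 he
  · exact key j i h1 i.2 he.symm


lemma collinear_det {A B C : ℝ × ℝ} (hc : Collinear ℝ {A, B, C}) :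
    (B.1 - A.1) * (C.2 - A.2) = (B.2 - A.2) * (C.1 - A.1) := by
  rw [collinear_iff_of_mem (p₀ := A) (by simp)] at hc
  obtain ⟨w, hw⟩ := hc
  obtain ⟨r, hr⟩ := hw B (by simp)
  obtain ⟨t, ht⟩ := hw C (by simp)
  rw [hr, ht]
  simp only [vadd_eq_add, Prod.fst_add, Prod.snd_add, Prod.smul_fst, Prod.smul_snd, smul_eq_mul]
  ring

lemma nxt_val {n : ℕ} {l : Fin n} (hl : (l : ℕ) + 1 < n) : ((nxt l : Fin n) : ℕ) = l + 1 := by
  unfold nxt
  have : NeZero n := ⟨by omega⟩
  rw [finRotate_apply, Fin.val_add_one_of_lt' hl]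

lemma nxt_last {n : ℕ} {l : Fin n} (hl : (l : ℕ) + 1 = n) : ((nxt l : Fin n) : ℕ) = 0 := by
  unfold nxt
  have : NeZero n := ⟨by omega⟩
  rw [finRotate_apply, Fin.val_add]
  have h1 : ((1 : Fin n) : ℕ) = 1 % n := by
    rcases n with _ | _ | n
    · omega
    · rfl
    · simp
  rw [h1]
  simp [hl]

lemma corner_lemma (hm : 1 ≤ m) (hk : 1 ≤ k) (hh : ∀ i < m, 0 < h i) {l : ℕ}
    (hl : l < 2 * m + k + 1) :
    ¬ Collinear ℝ {V m k h l, V m k h (l + 1), V m k h (l + 1 + 1)} := by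
  have hk' : (1 : ℝ) ≤ k := by exact_mod_cast hk
  have hm' : (1 : ℝ) ≤ m := by exact_mod_cast hm
  intro hc
  have hd := collinear_det hc
  rcases edge_cases (m := m) (k := k) l (by omega) with
    ⟨i, hi, rfl⟩ | ⟨i, hi, rfl⟩ | rfl | ⟨j, hj, rfl⟩ | rfl
  · rw [V_even (by omega), V_odd hi, show 2 * i + 1 + 1 = 2 * (i + 1) by ring, V_even hi] at hd
    have := hh i hi
    push_cast at hd
    nlinarith
  · rw [show 2 * i + 1 + 1 = 2 * (i + 1) by ring, V_odd hi, V_even hi] at hd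
    rcases Nat.lt_or_ge (i + 1) m with h1 | h1
    · rw [V_odd h1] at hd
      have a := hh i hi
      have b := hh (i + 1) h1
      push_cast at hd
      nlinarith
    · have e : i + 1 = m := by omega
      rw [e, V_corner] at hd
      have a := hh i hi
      have e' : (m : ℝ) = i + 1 := by rw [← e]; push_cast; ring
      rw [e'] at hd
      push_cast at hd
      nlinarith
  · rw [V_even le_rfl, V_corner, show 2 * m + 1 + 1 = 2 * m + 1 + 1 by rfl, V_bot hk] at hd
    push_cast at hd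
    nlinarith
  · rw [add_assoc (2 * m + 1) j 1, V_bot hj.le, V_bot hj] at hd
    have hj0 : (0 : ℝ) ≤ j := Nat.cast_nonneg _
    rcases Nat.lt_or_ge (j + 1) k with h1 | h1
    · rw [add_assoc (2 * m + 1) (j + 1) 1, V_bot h1] at hd
      push_cast at hd
      nlinarith
    · have e : j + 1 = k := by omega
      have e' : (k : ℝ) = j + 1 := by rw [← e]; push_cast; ring
      rw [show 2 * m + 1 + (j + 1) + 1 = 2 * m + k + 2 by omega, V_last] at hd
      push_cast at hd
      rw [e'] at hd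
      nlinarith
  · omega

lemma corner_last (hm : 1 ≤ m) (hk : 1 ≤ k) (hh : ∀ i < m, 0 < h i) :
    ¬ Collinear ℝ {V m k h (2 * m + 1 + k), V m k h (2 * m + k + 2), V m k h 1} := by
  have hk' : (1 : ℝ) ≤ k := by exact_mod_cast hk
  have hm' : (1 : ℝ) ≤ m := by exact_mod_cast hm
  intro hc
  have hd := collinear_det hc
  have a := hh 0 hm
  rw [V_bot le_rfl, V_last, show 1 = 2 * 0 + 1 by rfl, V_odd hm] at hd
  push_cast at hd
  nlinarith

lemma P_simple (hm : 1 ≤ m) (hk : 1 ≤ k) (hh : ∀ i < m, 0 < h i) :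
    IsSimplePolygon (P m k h) := by
  refine ⟨by omega, P_injective hk hh, ?_, ?_⟩
  · intro l
    rcases Nat.lt_or_ge ((l : ℕ) + 1) (2 * m + k + 2) with h1 | h1
    · rw [P_nxt (nxt l), P_nxt l, nxt_val h1]
      exact corner_lemma hm hk hh (by omega)
    · have e : (l : ℕ) + 1 = 2 * m + k + 2 := by omega
      rw [P_nxt (nxt l), P_nxt l, nxt_last e, e]
      have e2 : P m k h l = V m k h (2 * m + 1 + k) := by
        unfold P; congr 1; omega
      rw [e2]
      exact corner_last hm hk hh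
  · intro i j hij p hp
    rw [P_nxt, P_nxt] at hp
    rw [P_nxt, P_nxt]
    rcases lt_or_gt_of_ne hij with h1 | h1
    · obtain ⟨a, b⟩ := edges_lt hk hh h1 j.2 hp.1 hp.2
      exact ⟨a, b⟩
    · obtain ⟨a, b⟩ := edges_lt hk hh h1 i.2 hp.2 hp.1
      exact ⟨b, a⟩


/-! ## visibility -/

/-- spike heights from thresholds -/
noncomputable def hgt (m k : ℕ) (c : ℕ → ℕ) (i : ℕ) : ℝ :=
  ((m + k + 1 : ℝ) - ((c i : ℝ) - 1 / 2)) * ((c i : ℝ) - 1 / 2) /
    ((m + k + 1 : ℝ) - ((c i : ℝ) - 1 / 2) - (i + 1)) / 2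

variable {c : ℕ → ℕ}

lemma hgt_key (hc : ∀ i < m, 1 ≤ c i ∧ c i ≤ k + 1) {i : ℕ} (hi : i < m) :
    0 < hgt m k c i ∧
    2 * hgt m k c i * ((m + k + 1 : ℝ) - ((c i : ℝ) - 1 / 2) - (i + 1)) =
      ((m + k + 1 : ℝ) - ((c i : ℝ) - 1 / 2)) * ((c i : ℝ) - 1 / 2) := by
  have h1 : (1 : ℝ) ≤ c i := by exact_mod_cast (hc i hi).1
  have h2 : (c i : ℝ) ≤ k + 1 := by exact_mod_cast (hc i hi).2
  have h3 : (i : ℝ) + 1 ≤ m := by exact_mod_cast hi
  have h4 : 0 < (m + k + 1 : ℝ) - ((c i : ℝ) - 1 / 2) - (i + 1) := by linarith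
  have h5 : (0 : ℝ) ≤ i := Nat.cast_nonneg _
  unfold hgt
  constructor
  · apply div_pos _ two_pos
    apply div_pos _ h4
    apply mul_pos <;> linarith
  · generalize (m + k + 1 : ℝ) - ((c i : ℝ) - 1 / 2) - (i + 1) = D at *
    generalize ((m + k + 1 : ℝ) - ((c i : ℝ) - 1 / 2)) * ((c i : ℝ) - 1 / 2) = N
    field_simp

lemma hgt_pos (hc : ∀ i < m, 1 ≤ c i ∧ c i ≤ k + 1) : ∀ i < m, 0 < hgt m k c i :=
  fun _ hi => (hgt_key hc hi).1

/-- the algebraic comparison of slopes -/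
lemma slope_cmp {W d u v : ℝ} (hu : d < W - u) (hv : d < W - v) (hd0 : 0 ≤ d) (hdW : d ≤ W)
    (huv : u < v) :
    (W - u) * u * (W - v - d) < (W - v) * v * (W - u - d) := by
  have e : (W - v) * v * (W - u - d) - (W - u) * u * (W - v - d) =
      (v - u) * ((W - u - d) * (W - v - d) + d * (W - d)) := by ring
  have h1 : 0 < (W - u - d) * (W - v - d) := mul_pos (by linarith) (by linarith)
  have h2 : 0 ≤ d * (W - d) := mul_nonneg hd0 (by linarith)
  have h3 : 0 < (v - u) * ((W - u - d) * (W - v - d) + d * (W - d)) :=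
    mul_pos (by linarith) (by linarith)
  linarith

lemma thr_le (hc : ∀ i < m, 1 ≤ c i ∧ c i ≤ k + 1) {i j : ℕ} (hi : i < m) (hj : j ≤ k)
    (hcj : c i ≤ j) :
    2 * hgt m k c i * ((m + k + 1 : ℝ) - j - (i + 1)) ≤ ((m + k + 1 : ℝ) - j) * j := by
  obtain ⟨hp, he⟩ := hgt_key hc hi
  have h1 : (1 : ℝ) ≤ c i := by exact_mod_cast (hc i hi).1
  have h2 : (c i : ℝ) ≤ k + 1 := by exact_mod_cast (hc i hi).2
  have h3 : (i : ℝ) + 1 ≤ m := by exact_mod_cast hi
  have h5 : (0 : ℝ) ≤ i := Nat.cast_nonneg _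
  have h6 : (c i : ℝ) ≤ j := by exact_mod_cast hcj
  have h7 : (j : ℝ) ≤ k := by exact_mod_cast hj
  set W : ℝ := m + k + 1 with hW
  set u : ℝ := (c i : ℝ) - 1 / 2 with hu
  set d : ℝ := i + 1 with hd
  have hcmp := slope_cmp (W := W) (d := d) (u := u) (v := j) (by linarith) (by linarith)
    (by linarith) (by linarith) (by linarith)
  have h4 : 0 < W - u - d := by linarith
  have h8 : 0 < W - j - d := by linarith
  rw [← he] at hcmp
  have : 2 * hgt m k c i * (W - j - d) * (W - u - d) < (W - j) * j * (W - u - d) := by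
    nlinarith
  exact (lt_of_mul_lt_mul_right this h4.le).le

lemma thr_gt (hc : ∀ i < m, 1 ≤ c i ∧ c i ≤ k + 1) {i j : ℕ} (hi : i < m) (hj : j ≤ k)
    (hcj : j < c i) :
    ((m + k + 1 : ℝ) - j) * j < 2 * hgt m k c i * ((m + k + 1 : ℝ) - j - (i + 1)) := by
  obtain ⟨hp, he⟩ := hgt_key hc hi
  have h1 : (1 : ℝ) ≤ c i := by exact_mod_cast (hc i hi).1
  have h2 : (c i : ℝ) ≤ k + 1 := by exact_mod_cast (hc i hi).2
  have h3 : (i : ℝ) + 1 ≤ m := by exact_mod_cast hi
  have h5 : (0 : ℝ) ≤ i := Nat.cast_nonneg _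
  have h6 : (j : ℝ) + 1 ≤ c i := by exact_mod_cast hcj
  have h7 : (j : ℝ) ≤ k := by exact_mod_cast hj
  set W : ℝ := m + k + 1 with hW
  set u : ℝ := (c i : ℝ) - 1 / 2 with hu
  set d : ℝ := i + 1 with hd
  have hcmp := slope_cmp (W := W) (d := d) (u := j) (v := u) (by linarith) (by linarith)
    (by linarith) (by linarith) (by linarith)
  have h4 : 0 < W - u - d := by linarith
  have h8 : 0 < W - j - d := by linarith
  rw [← he] at hcmp
  have : (W - j) * j * (W - u - d) < 2 * hgt m k c i * (W - j - d) * (W - u - d) := by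
    nlinarith
  exact lt_of_mul_lt_mul_right this h4.le

/-- blocking on the right -/
lemma block_right (hk : 1 ≤ k) (hh : ∀ i < m, 0 < h i) {i : ℕ} (hi : i < m) {q : ℝ × ℝ}
    (h1 : (i : ℝ) + 1 ≤ q.1) (h2 : 2 * h i * (i + 1 - q.1) < q.2) :
    ¬ segment ℝ (V m k h (2 * i + 1)) q ⊆ region (P m k h) := by
  intro hs
  have hd : 0 < q.1 - i - 1 / 2 := by linarith
  obtain ⟨b, hb0, hb1, hbD⟩ : ∃ b : ℝ, 0 ≤ b ∧ b ≤ 1 ∧ b * (q.1 - i - 1 / 2) = 1 / 2 := by
    refine ⟨(1 / 2) / (q.1 - i - 1 / 2), by positivity, ?_, ?_⟩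
    · rw [div_le_one hd]; linarith
    · exact div_mul_cancel₀ _ hd.ne'
  have hmem : (((i + 1 : ℕ) : ℝ), h i + b * (q.2 - h i)) ∈ segment ℝ (V m k h (2 * i + 1)) q := by
    refine ⟨1 - b, b, by linarith, hb0, by ring, ?_⟩
    rw [V_odd hi]
    ext
    · simp only [Prod.fst_add, Prod.smul_fst, smul_eq_mul]
      push_cast
      linear_combination hbD
    · simp only [Prod.snd_add, Prod.smul_snd, smul_eq_mul]
      ring
  refine not_region hk hh (i + 1) ?_ (hs hmem)
  have h3 : (q.1 - i - 1 / 2) * (h i + b * (q.2 - h i)) =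
      (q.1 - i - 1 / 2) * h i + 1 / 2 * (q.2 - h i) := by
    linear_combination (q.2 - h i) * hbD
  have h4 : 0 < (q.1 - i - 1 / 2) * (h i + b * (q.2 - h i)) := by
    rw [h3]; linarith
  exact (mul_pos_iff_of_pos_left hd).1 h4

/-- blocking on the left -/
lemma block_left (hk : 1 ≤ k) (hh : ∀ i < m, 0 < h i) {i : ℕ} (hi : i < m) {q : ℝ × ℝ}
    (h1 : q.1 ≤ i) (h2 : 2 * h i * (q.1 - i) < q.2) :
    ¬ segment ℝ (V m k h (2 * i + 1)) q ⊆ region (P m k h) := by
  intro hs
  have hd : 0 < i + 1 / 2 - q.1 := by linarith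
  obtain ⟨b, hb0, hb1, hbD⟩ : ∃ b : ℝ, 0 ≤ b ∧ b ≤ 1 ∧ b * (i + 1 / 2 - q.1) = 1 / 2 := by
    refine ⟨(1 / 2) / (i + 1 / 2 - q.1), by positivity, ?_, ?_⟩
    · rw [div_le_one hd]; linarith
    · exact div_mul_cancel₀ _ hd.ne'
  have hmem : ((i : ℝ), h i + b * (q.2 - h i)) ∈ segment ℝ (V m k h (2 * i + 1)) q := by
    refine ⟨1 - b, b, by linarith, hb0, by ring, ?_⟩
    rw [V_odd hi]
    ext
    · simp only [Prod.fst_add, Prod.smul_fst, smul_eq_mul]
      linear_combination -hbD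
    · simp only [Prod.snd_add, Prod.smul_snd, smul_eq_mul]
      ring
  refine not_region hk hh i ?_ (hs hmem)
  have h3 : (i + 1 / 2 - q.1) * (h i + b * (q.2 - h i)) =
      (i + 1 / 2 - q.1) * h i + 1 / 2 * (q.2 - h i) := by
    linear_combination (q.2 - h i) * hbD
  have h4 : 0 < (i + 1 / 2 - q.1) * (h i + b * (q.2 - h i)) := by
    rw [h3]; linarith
  exact (mul_pos_iff_of_pos_left hd).1 h4

/-- index of a spike apex -/
def Spk (m l : ℕ) : Prop := l < 2 * m ∧ l % 2 = 1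

lemma flat_mem (hk : 1 ≤ k) {l : ℕ} (hl : l < 2 * m + k + 2) (hs : ¬ Spk m l) :
    V m k h l ∈ Up m k ∩ {p | p.2 ≤ 0} := by
  unfold Spk at hs
  rcases Nat.lt_or_ge (2 * m) l with h1 | h1
  · obtain ⟨j, rfl⟩ : ∃ j, l = 2 * m + 1 + j := ⟨l - (2 * m + 1), by omega⟩
    have hj : j ≤ k := by omega
    have hj' : (j : ℝ) ≤ k := by exact_mod_cast hj
    have hj0 : (0 : ℝ) ≤ j := Nat.cast_nonneg _
    have hm0 : (0 : ℝ) ≤ m := Nat.cast_nonneg _
    rw [V_bot hj]
    refine ⟨mem_Up_bot hj, ?_⟩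
    show -(((m + k + 1 : ℝ) - j) * j) ≤ 0
    nlinarith
  · obtain ⟨i, rfl⟩ : ∃ i, l = 2 * i := ⟨l / 2, by omega⟩
    refine ⟨V_even_Up hk (by omega), ?_⟩
    rw [V_even (by omega)]
    exact le_refl (0 : ℝ)

/-- visibility between two indices -/
def Vis (m k : ℕ) (h : ℕ → ℝ) (l l' : ℕ) : Prop :=
  segment ℝ (V m k h l) (V m k h l') ⊆ region (P m k h)

lemma vis_symm {l l' : ℕ} : Vis m k h l l' ↔ Vis m k h l' l := by
  unfold Vis; rw [segment_symm]

lemma vis_flat (hk : 1 ≤ k) (hh : ∀ i < m, 0 < h i) {l l' : ℕ} (hl : l < 2 * m + k + 2)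
    (hl' : l' < 2 * m + k + 2) (hs : ¬ Spk m l) (hs' : ¬ Spk m l') : Vis m k h l l' := by
  have h1 := (convex_Up.inter convex_Bot).segment_subset (flat_mem (h := h) hk hl hs)
    (flat_mem (h := h) hk hl' hs')
  exact fun p hp => K_sub_region hk hh (mem_K_of_Bot (h1 hp).1 (h1 hp).2)

lemma vis_spike_of (hk : 1 ≤ k) (hh : ∀ i < m, 0 < h i) {i : ℕ} (hi : i < m) {q : ℝ × ℝ}
    (h1 : q ∈ Up m k) (h2 : q ∈ Tent h i) :
    segment ℝ (V m k h (2 * i + 1)) q ⊆ region (P m k h) := by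
  have h3 := (convex_Up.inter (convex_Tent i)).segment_subset
    (show V m k h (2 * i + 1) ∈ Up m k ∩ Tent h i from ⟨V_odd_Up hk hh hi, by
      rw [V_odd hi]; refine ⟨?_, ?_⟩ <;> simp <;> linarith⟩) ⟨h1, h2⟩
  exact fun p hp => K_sub_region hk hh (mem_K_of_Tent hi (h3 hp).1 (h3 hp).2)

lemma not_vis_spike_spike (hk : 1 ≤ k) (hh : ∀ i < m, 0 < h i) {i i' : ℕ} (hi' : i' < m)
    (hii : i < i') : ¬ Vis m k h (2 * i + 1) (2 * i' + 1) := by
  have hlt : (i : ℝ) + 1 ≤ i' := by exact_mod_cast hii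
  have hp := hh i (by omega)
  have hp' := hh i' hi'
  apply block_right hk hh (by omega)
  · rw [V_odd hi']
    show (i : ℝ) + 1 ≤ i' + 1 / 2
    linarith
  · rw [V_odd hi']
    show 2 * h i * (i + 1 - (i' + 1 / 2)) < h i'
    nlinarith

lemma vis_spike_even (hk : 1 ≤ k) (hh : ∀ i < m, 0 < h i) {i s : ℕ} (hi : i < m) (hs : s ≤ m) :
    Vis m k h (2 * i + 1) (2 * s) ↔ s = i ∨ s = i + 1 := by
  have hp := hh i hi
  constructor
  · intro hv
    by_contra hne
    push Not at hne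
    rcases Nat.lt_or_ge s i with h1 | h1
    · have h1' : (s : ℝ) + 1 ≤ i := by exact_mod_cast h1
      refine block_left hk hh hi ?_ ?_ hv
      · rw [V_even hs]; show (s : ℝ) ≤ i; linarith
      · rw [V_even hs]; show 2 * h i * ((s : ℝ) - i) < 0; nlinarith
    · have h1' : (i : ℝ) + 2 ≤ s := by exact_mod_cast (show i + 2 ≤ s by omega)
      refine block_right hk hh hi ?_ ?_ hv
      · rw [V_even hs]; show (i : ℝ) + 1 ≤ s; linarith
      · rw [V_even hs]; show 2 * h i * (i + 1 - (s : ℝ)) < 0; nlinarith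
  · intro hv
    apply vis_spike_of hk hh hi (V_even_Up hk hs)
    rw [V_even hs]
    rcases hv with rfl | rfl
    · refine ⟨?_, ?_⟩ <;> simp
      linarith
    · refine ⟨?_, ?_⟩ <;> simp
      linarith

lemma vis_spike_bot (hk : 1 ≤ k) (hc : ∀ i < m, 1 ≤ c i ∧ c i ≤ k + 1) {i j : ℕ} (hi : i < m)
    (hj : j ≤ k) : Vis m k (hgt m k c) (2 * i + 1) (2 * m + 1 + j) ↔ c i ≤ j := by
  have hh := hgt_pos hc
  have h3 : (i : ℝ) + 1 ≤ m := by exact_mod_cast hi
  have h5 : (0 : ℝ) ≤ i := Nat.cast_nonneg _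
  have h7 : (j : ℝ) ≤ k := by exact_mod_cast hj
  have h8 : (0 : ℝ) ≤ j := Nat.cast_nonneg _
  constructor
  · intro hv
    by_contra hne
    push Not at hne
    refine block_right hk hh hi ?_ ?_ hv
    · rw [V_bot hj]; show (i : ℝ) + 1 ≤ (m + k + 1 : ℝ) - j; linarith
    · rw [V_bot hj]
      show 2 * hgt m k c i * (i + 1 - ((m + k + 1 : ℝ) - j)) < -(((m + k + 1 : ℝ) - j) * j)
      have := thr_gt hc hi hj hne
      linarith
  · intro hv
    have hp := hh i hi
    apply vis_spike_of hk hh hi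
    · rw [V_bot hj]; exact mem_Up_bot hj
    · rw [V_bot hj]
      refine ⟨?_, ?_⟩
      · show -(((m + k + 1 : ℝ) - j) * j) ≤ 2 * hgt m k c i * ((m + k + 1 : ℝ) - j - i)
        have h9 : 0 ≤ 2 * hgt m k c i * ((m + k + 1 : ℝ) - j - i) :=
          mul_nonneg (by linarith) (by linarith)
        have h10 : 0 ≤ ((m + k + 1 : ℝ) - j) * j := mul_nonneg (by linarith) h8
        linarith
      · show -(((m + k + 1 : ℝ) - j) * j) ≤ 2 * hgt m k c i * (i + 1 - ((m + k + 1 : ℝ) - j))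
        have := thr_le hc hi hj hv
        linarith


/-! ## the visibility graph -/

/-- the visibility graph of our polygon -/
noncomputable def GG (m k : ℕ) (c : ℕ → ℕ) : SimpleGraph (Fin (2 * m + k + 2)) :=
  visGraph (P m k (hgt m k c))

/-- admissible threshold functions -/
structure Adm (m k : ℕ) (c : ℕ → ℕ) : Prop where
  hm : 4 ≤ m
  hk : 1 ≤ k
  rng : ∀ i < m, 1 ≤ c i ∧ c i ≤ k + 1
  c0 : c 0 = 1
  c1 : c 1 = 1
  c2 : c 2 = 1
  cl : c (m - 1) = k + 1

lemma adj_iff {x y : Fin (2 * m + k + 2)} :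
    (GG m k c).Adj x y ↔ x ≠ y ∧ Vis m k (hgt m k c) x y := Iff.rfl

variable {x y z : Fin (2 * m + k + 2)}

lemma adj_flat (H : Adm m k c) (hx : ¬ Spk m x) (hy : ¬ Spk m y) (hxy : x ≠ y) :
    (GG m k c).Adj x y :=
  adj_iff.2 ⟨hxy, vis_flat H.hk (hgt_pos H.rng) x.2 y.2 hx hy⟩

lemma not_adj_spk (H : Adm m k c) (hx : Spk m x) (hy : Spk m y) : ¬ (GG m k c).Adj x y := by
  rintro ⟨hne, hv⟩
  have hne' : (x : ℕ) ≠ y := fun e => hne (Fin.ext e)
  have hv' : Vis m k (hgt m k c) x y := hv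
  obtain ⟨hx1, hx2⟩ := hx
  obtain ⟨hy1, hy2⟩ := hy
  have ex : (x : ℕ) = 2 * ((x : ℕ) / 2) + 1 := by omega
  have ey : (y : ℕ) = 2 * ((y : ℕ) / 2) + 1 := by omega
  rw [ex, ey] at hv'
  rcases lt_or_gt_of_ne hne' with h1 | h1
  · exact not_vis_spike_spike H.hk (hgt_pos H.rng) (by omega) (by omega) hv'
  · exact not_vis_spike_spike H.hk (hgt_pos H.rng) (by omega) (by omega) (vis_symm.1 hv')

lemma adj_spk (H : Adm m k c) {i : ℕ} (hi : i < m) (hx : (x : ℕ) = 2 * i + 1)
    (hy : ¬ Spk m y) : (GG m k c).Adj x y ↔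
      (y : ℕ) = 2 * i ∨ (y : ℕ) = 2 * i + 2 ∨ 2 * m + 1 + c i ≤ y := by
  have hc := H.rng i hi
  have hxs : Spk m x := ⟨by omega, by omega⟩
  have hne : x ≠ y := fun e => hy (e ▸ hxs)
  rw [adj_iff, hx]
  simp only [ne_eq, hne, not_false_eq_true, true_and]
  rcases Nat.lt_or_ge (2 * m) y with h1 | h1
  · obtain ⟨j, hj⟩ : ∃ j, (y : ℕ) = 2 * m + 1 + j := ⟨(y : ℕ) - (2 * m + 1), by omega⟩
    rw [hj, vis_spike_bot H.hk H.rng hi (by omega)]
    omega
  · obtain ⟨s, hs⟩ : ∃ s, (y : ℕ) = 2 * s := by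
      unfold Spk at hy
      exact ⟨(y : ℕ) / 2, by omega⟩
    rw [hs, vis_spike_even H.hk (hgt_pos H.rng) hi (by omega)]
    omega

/-- simplicial vertices -/
def Simp (G : SimpleGraph (Fin (2 * m + k + 2))) (x : Fin (2 * m + k + 2)) : Prop :=
  ∀ y z, G.Adj x y → G.Adj x z → y ≠ z → G.Adj y z

lemma simp_iff (H : Adm m k c) : Simp (GG m k c) x ↔ Spk m x ∨ (x : ℕ) = 2 * m + 1 := by
  have hm := H.hm
  have hk := H.hk
  constructor
  · intro hS
    by_contra hne
    push Not at hne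
    obtain ⟨h1, h2⟩ := hne
    -- R
    set R : Fin (2 * m + k + 2) := ⟨2 * m + 1, by omega⟩ with hR
    have hRs : ¬ Spk m R := by unfold Spk; simp [hR]
    have hxR : x ≠ R := fun e => h2 (by rw [e])
    have hadjR := adj_flat H h1 hRs hxR
    -- a spike neighbour
    obtain ⟨i, hi, hai⟩ : ∃ i, ∃ hi : i < m,
        (GG m k c).Adj ⟨2 * i + 1, by omega⟩ x := by
      rcases Nat.lt_or_ge (2 * m) x with h3 | h3
      · refine ⟨0, by omega, ?_⟩
        rw [adj_spk H (i := 0) (by omega) rfl h1, H.c0]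
        right; right; omega
      · obtain ⟨s, hs⟩ : ∃ s, (x : ℕ) = 2 * s := by
          unfold Spk at h1
          exact ⟨(x : ℕ) / 2, by omega⟩
        rcases Nat.lt_or_ge s m with h4 | h4
        · refine ⟨s, h4, ?_⟩
          rw [adj_spk H h4 rfl h1]
          left; exact hs
        · refine ⟨s - 1, by omega, ?_⟩
          rw [adj_spk H (i := s - 1) (by omega) rfl h1]
          right; left; omega
    have hsp : Spk m ((⟨2 * i + 1, by omega⟩ : Fin (2 * m + k + 2)) : ℕ) :=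
      ⟨by show 2 * i + 1 < 2 * m; omega, by show (2 * i + 1) % 2 = 1; omega⟩
    have hne2 : (⟨2 * i + 1, by omega⟩ : Fin (2 * m + k + 2)) ≠ R := by
      intro e
      exact hRs (e ▸ hsp)
    have := hS _ _ hai.symm hadjR hne2
    rw [adj_spk H hi rfl hRs] at this
    have hc := (H.rng i hi).1
    have hRv : (R : ℕ) = 2 * m + 1 := rfl
    omega
  · rintro (h1 | h1) y z hy hz hyz
    · have hy' : ¬ Spk m y := fun hs => not_adj_spk H h1 hs hy
      have hz' : ¬ Spk m z := fun hs => not_adj_spk H h1 hs hz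
      exact adj_flat H hy' hz' hyz
    · have hxs : ¬ Spk m x := by unfold Spk; omega
      have key : ∀ w, (GG m k c).Adj x w → ¬ Spk m w := by
        intro w hw hs
        obtain ⟨hs1, hs2⟩ := hs
        rw [SimpleGraph.adj_comm, adj_spk H (i := (w : ℕ) / 2) (by omega) (by omega) hxs] at hw
        have hc := (H.rng ((w : ℕ) / 2) (by omega)).1
        omega
      exact adj_flat H (key y hy) (key z hz) hyz

lemma Simp_iso {G G' : SimpleGraph (Fin (2 * m + k + 2))} (φ : G ≃g G')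
    (hx : Simp G x) : Simp G' (φ x) := by
  intro y z hy hz hyz
  have hy' : G.Adj x (φ.symm y) := by
    rw [← φ.map_adj_iff]; simpa using hy
  have hz' : G.Adj x (φ.symm z) := by
    rw [← φ.map_adj_iff]; simpa using hz
  have := hx _ _ hy' hz' (fun e => hyz (φ.symm.injective e))
  rw [← φ.map_adj_iff] at this
  simpa using this

lemma Simp_iso_iff {G G' : SimpleGraph (Fin (2 * m + k + 2))} (φ : G ≃g G') :
    Simp G' (φ x) ↔ Simp G x := by
  constructor
  · intro h
    have := Simp_iso φ.symm h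
    simpa using this
  · exact Simp_iso φ

variable {c' : ℕ → ℕ}

lemma R_fixed (H : Adm m k c) (H' : Adm m k c') (φ : GG m k c ≃g GG m k c')
    (hx : (x : ℕ) = 2 * m + 1) : ((φ x : Fin (2 * m + k + 2)) : ℕ) = 2 * m + 1 := by
  have hm := H.hm
  have hS : Simp (GG m k c') (φ x) := Simp_iso φ ((simp_iff H).2 (Or.inr hx))
  rcases (simp_iff H').1 hS with h1 | h1
  · exfalso
    have hxs : ¬ Spk m x := by unfold Spk; omega
    obtain ⟨h2, h3⟩ := h1
    -- a tip not adjacent to the spike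
    obtain ⟨s, hs, hs1, hs2⟩ : ∃ s, s ≤ m ∧ s ≠ ((φ x : Fin (2 * m + k + 2)) : ℕ) / 2 ∧
        s ≠ ((φ x : Fin (2 * m + k + 2)) : ℕ) / 2 + 1 := by
      by_cases h4 : ((φ x : Fin (2 * m + k + 2)) : ℕ) / 2 = 0
      · exact ⟨2, by omega, by omega, by omega⟩
      · exact ⟨0, by omega, by omega, by omega⟩
    set w : Fin (2 * m + k + 2) := ⟨2 * s, by omega⟩ with hw
    have hwv : (w : ℕ) = 2 * s := rfl
    have hws : ¬ Spk m w := by unfold Spk; omega
    have hwS : ¬ Simp (GG m k c') w := by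
      rw [simp_iff H']; rintro (h5 | h5)
      · exact hws h5
      · omega
    have h6 : ¬ Simp (GG m k c) (φ.symm w) := by
      rw [← Simp_iso_iff φ]; simpa using hwS
    rw [simp_iff H] at h6
    push Not at h6
    have h7 : (GG m k c).Adj x (φ.symm w) := by
      apply adj_flat H hxs h6.1
      intro e
      exact h6.2 (by rw [← e, hx])
    rw [← φ.map_adj_iff] at h7
    simp only [RelIso.apply_symm_apply] at h7
    rw [adj_spk H' (i := ((φ x : Fin (2 * m + k + 2)) : ℕ) / 2) (by omega) (by omega) hws] at h7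
    omega
  · exact h1

lemma Spk_iso (H : Adm m k c) (H' : Adm m k c') (φ : GG m k c ≃g GG m k c')
    (hx : Spk m x) : Spk m (φ x) := by
  have hm := H.hm
  have hS : Simp (GG m k c') (φ x) := Simp_iso φ ((simp_iff H).2 (Or.inl hx))
  rcases (simp_iff H').1 hS with h1 | h1
  · exact h1
  · exfalso
    have h2 := R_fixed H' H φ.symm h1
    simp only [RelIso.symm_apply_apply] at h2
    unfold Spk at hx
    omega

lemma Spk_iso_iff (H : Adm m k c) (H' : Adm m k c') (φ : GG m k c ≃g GG m k c') :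
    Spk m (φ x) ↔ Spk m x := by
  constructor
  · intro h
    have := Spk_iso H' H φ.symm h
    simpa using this
  · exact Spk_iso H H' φ

/-- three distinct spike neighbours -/
def T3 (G : SimpleGraph (Fin (2 * m + k + 2))) (x : Fin (2 * m + k + 2)) : Prop :=
  ∃ a b d : Fin (2 * m + k + 2), Spk m a ∧ Spk m b ∧ Spk m d ∧ a ≠ b ∧ a ≠ d ∧ b ≠ d ∧
    G.Adj x a ∧ G.Adj x b ∧ G.Adj x d

lemma T3_iso (H : Adm m k c) (H' : Adm m k c') (φ : GG m k c ≃g GG m k c')
    (hx : T3 (GG m k c) x) : T3 (GG m k c') (φ x) := by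
  obtain ⟨a, b, d, h1, h2, h3, h4, h5, h6, h7, h8, h9⟩ := hx
  exact ⟨φ a, φ b, φ d, Spk_iso H H' φ h1, Spk_iso H H' φ h2, Spk_iso H H' φ h3,
    fun e => h4 (φ.injective e), fun e => h5 (φ.injective e), fun e => h6 (φ.injective e),
    φ.map_adj_iff.2 h7, φ.map_adj_iff.2 h8, φ.map_adj_iff.2 h9⟩

lemma T3_of (H : Adm m k c) (hx : 2 * m + 1 < (x : ℕ)) : T3 (GG m k c) x := by
  have hm := H.hm
  have hxs : ¬ Spk m x := by unfold Spk; omega
  refine ⟨⟨1, by omega⟩, ⟨3, by omega⟩, ⟨5, by omega⟩, ⟨by show 1 < 2 * m; omega, by norm_num⟩,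
    ⟨by show 3 < 2 * m; omega, by norm_num⟩, ⟨by show 5 < 2 * m; omega, by norm_num⟩, by simp, by simp, by simp,
    ?_, ?_, ?_⟩
  · rw [SimpleGraph.adj_comm, adj_spk H (i := 0) (by omega) rfl hxs, H.c0]; omega
  · rw [SimpleGraph.adj_comm, adj_spk H (i := 1) (by omega) rfl hxs, H.c1]; omega
  · rw [SimpleGraph.adj_comm, adj_spk H (i := 2) (by omega) rfl hxs, H.c2]; omega

/-- spike neighbours of a tip -/
lemma tip_nbr (H : Adm m k c) {s : ℕ} (hx : (x : ℕ) = 2 * s) (hs : s ≤ m) (hy : Spk m y) :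
    (GG m k c).Adj x y ↔ (y : ℕ) + 1 = 2 * s ∨ (y : ℕ) = 2 * s + 1 := by
  have hm := H.hm
  have hxs : ¬ Spk m x := by unfold Spk; omega
  obtain ⟨hy1, hy2⟩ := hy
  rw [SimpleGraph.adj_comm, adj_spk H (i := (y : ℕ) / 2) (by omega) (by omega) hxs]
  omega

lemma not_T3_tip (H : Adm m k c) {s : ℕ} (hx : (x : ℕ) = 2 * s) (hs : s ≤ m) :
    ¬ T3 (GG m k c) x := by
  rintro ⟨a, b, d, h1, h2, h3, h4, h5, h6, h7, h8, h9⟩
  rw [tip_nbr H hx hs h1] at h7
  rw [tip_nbr H hx hs h2] at h8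
  rw [tip_nbr H hx hs h3] at h9
  have h4' : (a : ℕ) ≠ b := fun e => h4 (Fin.ext e)
  have h5' : (a : ℕ) ≠ d := fun e => h5 (Fin.ext e)
  have h6' : (b : ℕ) ≠ d := fun e => h6 (Fin.ext e)
  omega

lemma tip_iso (H : Adm m k c) (H' : Adm m k c') (φ : GG m k c ≃g GG m k c') {s : ℕ}
    (hx : (x : ℕ) = 2 * s) (hs : s ≤ m) :
    ∃ t ≤ m, ((φ x : Fin (2 * m + k + 2)) : ℕ) = 2 * t := by
  have hxs : ¬ Spk m x := by unfold Spk; omega
  have h1 : ¬ Spk m (φ x) := by rw [Spk_iso_iff H H' φ]; exact hxs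
  have h2 : ¬ (2 * m + 1 < ((φ x : Fin (2 * m + k + 2)) : ℕ)) := by
    intro hlt
    have := T3_iso H' H φ.symm (T3_of H' hlt)
    simp only [RelIso.symm_apply_apply] at this
    exact not_T3_tip H hx hs this
  have h3 : ((φ x : Fin (2 * m + k + 2)) : ℕ) ≠ 2 * m + 1 := by
    intro e
    have := R_fixed H' H φ.symm e
    simp only [RelIso.symm_apply_apply] at this
    omega
  unfold Spk at h1
  exact ⟨((φ x : Fin (2 * m + k + 2)) : ℕ) / 2, by omega, by omega⟩

lemma bot_iso (H : Adm m k c) (H' : Adm m k c') (φ : GG m k c ≃g GG m k c')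
    (hx : 2 * m + 1 < (x : ℕ)) : 2 * m + 1 < ((φ x : Fin (2 * m + k + 2)) : ℕ) := by
  by_contra hlt
  push Not at hlt
  have hxs : ¬ Spk m x := by unfold Spk; omega
  have h1 : ¬ Spk m (φ x) := by rw [Spk_iso_iff H H' φ]; exact hxs
  have h3 : ((φ x : Fin (2 * m + k + 2)) : ℕ) ≠ 2 * m + 1 := by
    intro e
    have := R_fixed H' H φ.symm e
    simp only [RelIso.symm_apply_apply] at this
    omega
  unfold Spk at h1
  have := tip_iso H' H φ.symm (x := φ x) (s := ((φ x : Fin (2 * m + k + 2)) : ℕ) / 2)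
    (by omega) (by omega)
  simp only [RelIso.symm_apply_apply] at this
  omega

lemma first_fixed (H : Adm m k c) (H' : Adm m k c') (φ : GG m k c ≃g GG m k c')
    (hx : (x : ℕ) = 0) : ((φ x : Fin (2 * m + k + 2)) : ℕ) = 0 := by
  have hm := H.hm
  have hk := H.hk
  obtain ⟨t, ht, hφ⟩ := tip_iso H H' φ (x := x) (s := 0) (by omega) (by omega)
  -- the unique spike neighbour
  have huniq : ∀ y : Fin (2 * m + k + 2), Spk m y → (GG m k c').Adj (φ x) y →
      ((φ.symm y : Fin (2 * m + k + 2)) : ℕ) = 1 := by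
    intro y hy ha
    have h1 := Spk_iso H' H φ.symm hy
    have h2 : (GG m k c).Adj x (φ.symm y) := by
      rw [← φ.map_adj_iff]; simpa using ha
    rw [tip_nbr H (s := 0) (by omega) (by omega) h1] at h2
    omega
  rcases Nat.eq_zero_or_pos t with h0 | h0
  · omega
  · exfalso
    rcases Nat.lt_or_ge t m with h1 | h1
    · -- two spike neighbours
      set a : Fin (2 * m + k + 2) := ⟨2 * t - 1, by omega⟩ with ha
      set b : Fin (2 * m + k + 2) := ⟨2 * t + 1, by omega⟩ with hb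
      have hav : (a : ℕ) = 2 * t - 1 := rfl
      have hbv : (b : ℕ) = 2 * t + 1 := rfl
      have has : Spk m a := ⟨by omega, by omega⟩
      have hbs : Spk m b := ⟨by omega, by omega⟩
      have e1 := huniq a has ((tip_nbr H' hφ ht has).2 (by omega))
      have e2 := huniq b hbs ((tip_nbr H' hφ ht hbs).2 (by omega))
      have : φ.symm a = φ.symm b := Fin.ext (by rw [e1, e2])
      have := φ.symm.injective this
      have : (a : ℕ) = b := by rw [this]
      omega
    · have htm : t = m := le_antisymm ht h1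
      subst htm
      set y : Fin (2 * t + k + 2) := ⟨1, by omega⟩ with hy
      have hyv : (y : ℕ) = 1 := rfl
      have hys : Spk t y := ⟨by omega, by omega⟩
      have hxy : (GG t k c).Adj x y := by
        rw [tip_nbr H (s := 0) (by omega) (by omega) hys]; omega
      have hφy := Spk_iso H H' φ hys
      have h2 : (GG t k c').Adj (φ x) (φ y) := φ.map_adj_iff.2 hxy
      rw [tip_nbr H' hφ le_rfl hφy] at h2
      have h3 := hφy.1
      have h4 : ((φ y : Fin (2 * t + k + 2)) : ℕ) = 2 * (t - 1) + 1 := by omega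
      set w : Fin (2 * t + k + 2) := ⟨2 * t + 1 + k, by omega⟩ with hw
      have hwv : (w : ℕ) = 2 * t + 1 + k := rfl
      have hws : ¬ Spk t w := by unfold Spk; omega
      have h5 : (GG t k c).Adj y w := by
        rw [adj_spk H (i := 0) (by omega) (by omega) hws, H.c0]; omega
      have h6 : (GG t k c').Adj (φ y) (φ w) := φ.map_adj_iff.2 h5
      have h7 := bot_iso H H' φ (x := w) (by omega)
      have h8 : ¬ Spk t (φ w) := by unfold Spk; omega
      rw [adj_spk H' (i := t - 1) (by omega) h4 h8, H'.cl] at h6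
      have h9 := (φ w).2
      omega

lemma all_fixed (H : Adm m k c) (H' : Adm m k c') (φ : GG m k c ≃g GG m k c') (i : ℕ) :
    ∀ hi : i < m, ((φ ⟨2 * i, by omega⟩ : Fin (2 * m + k + 2)) : ℕ) = 2 * i ∧
      ((φ ⟨2 * i + 1, by omega⟩ : Fin (2 * m + k + 2)) : ℕ) = 2 * i + 1 := by
  have hm := H.hm
  -- second part from first, given previous
  induction i with
  | zero =>
    intro hi
    have h0 := first_fixed H H' φ (x := ⟨2 * 0, by omega⟩) rfl
    refine ⟨h0, ?_⟩
    set y : Fin (2 * m + k + 2) := ⟨2 * 0 + 1, by omega⟩ with hy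
    have hyv : (y : ℕ) = 1 := rfl
    have hys : Spk m y := ⟨by omega, by omega⟩
    have hxy : (GG m k c).Adj ⟨2 * 0, by omega⟩ y := by
      rw [tip_nbr H (s := 0) rfl (by omega) hys]; omega
    have h2 := φ.map_adj_iff.2 hxy
    rw [tip_nbr H' (s := 0) (by omega) (by omega) (Spk_iso H H' φ hys)] at h2
    omega
  | succ i ih =>
    intro hi
    obtain ⟨ih1, ih2⟩ := ih (by omega)
    set r : Fin (2 * m + k + 2) := ⟨2 * i, by omega⟩ with hr
    set a : Fin (2 * m + k + 2) := ⟨2 * i + 1, by omega⟩ with ha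
    set r' : Fin (2 * m + k + 2) := ⟨2 * (i + 1), by omega⟩ with hr'
    set a' : Fin (2 * m + k + 2) := ⟨2 * (i + 1) + 1, by omega⟩ with ha'
    have hrv : (r : ℕ) = 2 * i := rfl
    have hav : (a : ℕ) = 2 * i + 1 := rfl
    have hrv' : (r' : ℕ) = 2 * (i + 1) := rfl
    have hav' : (a' : ℕ) = 2 * (i + 1) + 1 := rfl
    have has : Spk m a := ⟨by omega, by omega⟩
    have has' : Spk m a' := ⟨by omega, by omega⟩
    obtain ⟨t, ht, hφ⟩ := tip_iso H H' φ hrv' (by omega)
    have h1 : (GG m k c).Adj r' a := by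
      rw [tip_nbr H hrv' (by omega) has]; omega
    have h2 := φ.map_adj_iff.2 h1
    rw [tip_nbr H' hφ ht (Spk_iso H H' φ has)] at h2
    have h3 : ((φ r' : Fin (2 * m + k + 2)) : ℕ) ≠ φ r := by
      intro e
      have : (r' : ℕ) = r := by rw [φ.injective (Fin.ext e)]
      omega
    have h4 : ((φ r' : Fin (2 * m + k + 2)) : ℕ) = 2 * (i + 1) := by omega
    refine ⟨h4, ?_⟩
    have h5 : (GG m k c).Adj r' a' := by
      rw [tip_nbr H hrv' (by omega) has']; omega
    have h6 := φ.map_adj_iff.2 h5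
    rw [tip_nbr H' h4 (by omega) (Spk_iso H H' φ has')] at h6
    have h7 : ((φ a' : Fin (2 * m + k + 2)) : ℕ) ≠ φ a := by
      intro e
      have : (a' : ℕ) = a := by rw [φ.injective (Fin.ext e)]
      omega
    omega

lemma thr_ge (H : Adm m k c) (H' : Adm m k c') (φ : GG m k c ≃g GG m k c') {i : ℕ} (hi : i < m) :
    c' i ≤ c i := by
  by_contra hlt
  push Not at hlt
  have hr := H.rng i hi
  have hr' := H'.rng i hi
  set S : Finset (Fin (2 * m + k + 2)) := Finset.univ.filter (fun l => 2 * m + 1 + c i ≤ (l : ℕ))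
    with hS
  set S' : Finset (Fin (2 * m + k + 2)) := Finset.univ.filter (fun l => 2 * m + 1 + c' i ≤ (l : ℕ))
    with hS'
  have h1 : S.card ≤ S'.card := by
    apply Finset.card_le_card_of_injOn φ
    · intro l hl
      simp only [hS, Finset.coe_filter, Finset.mem_univ, true_and, mem_ofPred_eq] at hl
      simp only [hS', Finset.coe_filter, Finset.mem_univ, true_and, mem_ofPred_eq]
      set a : Fin (2 * m + k + 2) := ⟨2 * i + 1, by omega⟩ with ha
      have hls : ¬ Spk m l := by unfold Spk; omega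
      have h2 : (GG m k c).Adj a l := by
        rw [adj_spk H hi rfl hls]; omega
      have h3 := φ.map_adj_iff.2 h2
      have h4 := bot_iso H H' φ (x := l) (by omega)
      have h5 : ¬ Spk m (φ l) := by unfold Spk; omega
      rw [adj_spk H' hi (all_fixed H H' φ i hi).2 h5] at h3
      omega
    · exact φ.injective.injOn
  have h2 : S'.card < S.card := by
    apply Finset.card_lt_card
    rw [Finset.ssubset_iff_of_subset]
    · refine ⟨⟨2 * m + 1 + c i, by omega⟩, ?_, ?_⟩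
      · simp [hS]
      · simp [hS']; omega
    · intro l hl
      simp only [hS', Finset.mem_filter, Finset.mem_univ, true_and] at hl
      simp only [hS, Finset.mem_filter, Finset.mem_univ, true_and]
      omega
  omega

lemma rigid (H : Adm m k c) (H' : Adm m k c') (φ : GG m k c ≃g GG m k c') {i : ℕ} (hi : i < m) :
    c i = c' i :=
  le_antisymm (thr_ge H' H φ.symm hi) (thr_ge H H' φ hi)


/-! ## counting -/

/-- isomorphism of graphs on `Fin n` as an equivalence relation -/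
def isoSetoid (n : ℕ) : Setoid (SimpleGraph (Fin n)) where
  r G H := Nonempty (G ≃g H)
  iseqv := ⟨fun _ => ⟨RelIso.refl _⟩, fun ⟨e⟩ => ⟨e.symm⟩, fun ⟨e⟩ ⟨f⟩ => ⟨e.trans f⟩⟩

/-- the number of isomorphism classes of visibility graphs of simple polygons
with `n` vertices -/
noncomputable def numVis (n : ℕ) : ℕ :=
  Set.ncard {q : Quotient (isoSetoid n) |
    ∃ v : Fin n → ℝ × ℝ, IsSimplePolygon v ∧ Quotient.mk (isoSetoid n) (visGraph v) = q}

/-- thresholds from a function -/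
def thr (m k : ℕ) (f : Fin (m - 4) → Fin (k + 1)) (i : ℕ) : ℕ :=
  if i < 3 then 1 else if i = m - 1 then k + 1 else
    if h : i - 3 < m - 4 then (f ⟨i - 3, h⟩ : ℕ) + 1 else 1

lemma thr_adm (hm : 4 ≤ m) (hk : 1 ≤ k) (f : Fin (m - 4) → Fin (k + 1)) :
    Adm m k (thr m k f) := by
  refine ⟨hm, hk, fun i hi => ?_, by simp [thr], by simp [thr], by simp [thr], ?_⟩
  · unfold thr
    split_ifs with h1 h2 h3
    · omega
    · omega
    · have := (f ⟨i - 3, h3⟩).2
      omega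
    · omega
  · unfold thr
    rw [if_neg (by omega), if_pos rfl]

lemma count_le (hm : 4 ≤ m) (hk : 1 ≤ k) : (k + 1) ^ (m - 4) ≤ numVis (2 * m + k + 2) := by
  set S : Set (Quotient (isoSetoid (2 * m + k + 2))) :=
    {q | ∃ v : Fin (2 * m + k + 2) → ℝ × ℝ, IsSimplePolygon v ∧
      Quotient.mk (isoSetoid (2 * m + k + 2)) (visGraph v) = q} with hS
  have hfin : S.Finite := Set.toFinite _
  let F : (Fin (m - 4) → Fin (k + 1)) → Quotient (isoSetoid (2 * m + k + 2)) := fun f =>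
    Quotient.mk (isoSetoid (2 * m + k + 2)) (GG m k (thr m k f))
  have hF : ∀ f, F f ∈ S := fun f =>
    ⟨P m k (hgt m k (thr m k f)),
      P_simple (by omega) hk (hgt_pos (thr_adm hm hk f).rng), rfl⟩
  have hinj : Function.Injective F := by
    intro f g hfg
    obtain ⟨φ⟩ : Nonempty (GG m k (thr m k f) ≃g GG m k (thr m k g)) := Quotient.exact hfg
    ext i
    have h1 := i.2
    have h2 := rigid (thr_adm hm hk f) (thr_adm hm hk g) φ (i := (i : ℕ) + 3) (by omega)
    unfold thr at h2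
    rw [if_neg (by omega), if_neg (by omega), if_neg (by omega), if_neg (by omega)] at h2
    simp only [Nat.add_sub_cancel] at h2
    rw [dif_pos h1, dif_pos h1] at h2
    simpa using h2
  have h1 : (Set.univ : Set (Fin (m - 4) → Fin (k + 1))).ncard ≤ S.ncard :=
    Set.ncard_le_ncard_of_injOn F (fun f _ => hF f) hinj.injOn hfin
  rw [Set.ncard_univ, Nat.card_eq_fintype_card, Fintype.card_fun, Fintype.card_fin,
    Fintype.card_fin] at h1
  exact h1


/-! ## asymptotics -/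

open Filter Topology in
lemma asymp {a c δ : ℝ} (hca : c < a) (hδ : 0 < δ) :
    ∀ᶠ n : ℕ in atTop, c * n * Real.log n ≤ (a * n - 5) * Real.log (δ * n) := by
  have hlog : Tendsto (fun n : ℕ => Real.log (n : ℝ)) atTop atTop :=
    Real.tendsto_log_atTop.comp tendsto_natCast_atTop_atTop
  have h1 : Tendsto (fun n : ℕ => (a - 5 / (n : ℝ)) * (1 + Real.log δ / Real.log n)) atTop
      (𝓝 ((a - 0) * (1 + 0))) := by
    apply Tendsto.mul
    · exact tendsto_const_nhds.sub (tendsto_const_div_atTop_nhds_zero_nat 5)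
    · exact tendsto_const_nhds.add (hlog.const_div_atTop (Real.log δ))
  have h2 : c < (a - 0) * (1 + 0) := by simpa using hca
  filter_upwards [h1.eventually (lt_mem_nhds h2), eventually_gt_atTop 1,
    hlog.eventually_gt_atTop 0] with n hn hn1 hn2
  have hnpos : (0 : ℝ) < n := by exact_mod_cast (by omega : 0 < n)
  have h3 : (a * n - 5) * Real.log (δ * n) =
      (a - 5 / (n : ℝ)) * (1 + Real.log δ / Real.log n) * (n * Real.log n) := by
    rw [Real.log_mul hδ.ne' hnpos.ne']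
    field_simp
    ring
  rw [h3, mul_assoc]
  exact mul_le_mul_of_nonneg_right hn.le (by positivity)

/-- For every `c < 1/2`, `log₂ N(n) ≥ c · n · log₂ n` for all large `n`. -/
theorem result : ∀ c : ℝ, c < 1 / 2 →
    ∀ᶠ n : ℕ in Filter.atTop, c * (n * Real.logb 2 n) ≤ Real.logb 2 (numVis n) := by
  intro c hc
  -- choose `a` with `max c 0 < a < 1/2`
  obtain ⟨a, ha1, ha2⟩ := exists_between (max_lt hc (by norm_num : (0 : ℝ) < 1 / 2))
  have hca : c < a := lt_of_le_of_lt (le_max_left _ _) ha1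
  have ha0 : 0 < a := lt_of_le_of_lt (le_max_right _ _) ha1
  have hδ : 0 < (1 - 2 * a) / 2 := by linarith
  have h5 : ∀ᶠ n : ℕ in Filter.atTop, 5 ≤ a * n :=
    (tendsto_natCast_atTop_atTop.const_mul_atTop ha0).eventually_ge_atTop 5
  have h6 : ∀ᶠ n : ℕ in Filter.atTop, 3 ≤ (1 - 2 * a) / 2 * n :=
    (tendsto_natCast_atTop_atTop.const_mul_atTop hδ).eventually_ge_atTop 3
  filter_upwards [asymp hca hδ, h5, h6, Filter.eventually_gt_atTop 1] with n hn h5 h6 hn1
  have hnpos : (0 : ℝ) < n := by exact_mod_cast (by omega : 0 < n)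
  set m : ℕ := ⌊a * n⌋₊ with hm
  have hm1 : (m : ℝ) ≤ a * n := Nat.floor_le (by positivity)
  have hm2 : a * n < m + 1 := Nat.lt_floor_add_one _
  have hm4 : 4 ≤ m := by
    have : (5 : ℝ) < m + 1 := by linarith
    have : (5 : ℕ) < m + 1 := by exact_mod_cast this
    omega
  have h2m : 2 * m + 3 ≤ n := by
    have : (2 * m + 3 : ℝ) ≤ n := by nlinarith
    exact_mod_cast this
  obtain ⟨k, hk⟩ : ∃ k, n = 2 * m + k + 2 := ⟨n - 2 * m - 2, by omega⟩
  have hk1 : 1 ≤ k := by omega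
  have hcount := count_le hm4 hk1
  rw [← hk] at hcount
  have hk' : (k : ℝ) = n - 2 * m - 2 := by rw [hk]; push_cast; ring
  have hkδ : (1 - 2 * a) / 2 * n ≤ (k + 1 : ℝ) := by rw [hk']; nlinarith
  have hδn : 1 ≤ (1 - 2 * a) / 2 * n := by linarith
  have hlogδ : 0 ≤ Real.log ((1 - 2 * a) / 2 * n) := Real.log_nonneg hδn
  have hlogk : Real.log ((1 - 2 * a) / 2 * n) ≤ Real.log (k + 1) :=
    Real.log_le_log (by linarith) hkδ
  have hN : ((k + 1 : ℝ)) ^ (m - 4) ≤ (numVis n : ℝ) := by exact_mod_cast hcount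
  have hlogN : ((m - 4 : ℕ) : ℝ) * Real.log (k + 1) ≤ Real.log (numVis n) := by
    rw [← Real.log_pow]
    exact Real.log_le_log (by positivity) hN
  have hm4' : ((m - 4 : ℕ) : ℝ) = m - 4 := by push_cast [Nat.cast_sub hm4]; ring
  have hfin : c * n * Real.log n ≤ Real.log (numVis n) := by
    refine le_trans hn (le_trans ?_ hlogN)
    rw [hm4']
    apply mul_le_mul (by linarith) hlogk hlogδ (by linarith)
  have hl2 : 0 < Real.log 2 := Real.log_pos (by norm_num)
  unfold Real.logb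
  rw [← mul_div_assoc, ← mul_div_assoc, ← mul_assoc]
  exact div_le_div_of_nonneg_right hfin hl2.le

end Pool.Agent.Results.MP_af711c_co.LowerNLogN
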